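import Pool.Agent.Helper80.CT.AvgOne

/-!
# Block CT-COL: a good colouring

PROOF.  Sum `avg_one` over `S ∈ T` (`S.card ≤ N`, monotone) and over `τ ∈ D`; the average over the `m ^ card P` colourings `c` of the left side is at
most the right side, so some `c` has the property (`Finset.exists_le_of_sum_le`; there is at least one colouring because `m ≥ 1`).
-/

set_option autoImplicit false

namespace Pool.Agent.Helper80.CT

open Finset

open Classical in
theorem exists_coloring {P ι : Type} [Fintype P] (T : Finset (Finset P)) (N : ℕ) {l m : ℕ} (hl : 1 ≤ l)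
    (hm : 1 ≤ m) (hT : ∀ S ∈ T, S.card ≤ N) (D : Finset ι) (r : ι → Fin m → ℕ)
    (hr : ∀ τ ∈ D, ∑ j, r τ j = l) :
    ∃ c : P → Fin m, ((∑ S ∈ T, ∑ τ ∈ D, ∏ j, ((S.filter fun p => c p = j).card + r τ j).choose (r τ j) : ℕ) : ℝ) ≤
      (T.card : ℝ) * (∑ τ ∈ D, ∏ j, 1 / ((r τ j).factorial : ℝ)) *
        (((N : ℝ) / m) ^ l + 2 * (l : ℝ) ^ 2 * ((N : ℝ) + l) ^ (l - 1)) := by
  have hm0 : (0 : ℝ) < m := by exact_mod_cast hm
  have hne : (Finset.univ : Finset (P → Fin m)).Nonempty :=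
    ⟨fun _ => ⟨0, hm⟩, Finset.mem_univ _⟩
  have hsum : ∑ c : P → Fin m,
      ((∑ S ∈ T, ∑ τ ∈ D, ∏ j, ((S.filter fun p => c p = j).card + r τ j).choose (r τ j) : ℕ) : ℝ) ≤
      ∑ _c : P → Fin m, (T.card : ℝ) * (∑ τ ∈ D, ∏ j, 1 / ((r τ j).factorial : ℝ)) *
        (((N : ℝ) / m) ^ l + 2 * (l : ℝ) ^ 2 * ((N : ℝ) + l) ^ (l - 1)) := by
    rw [Finset.sum_const, Finset.card_univ, Fintype.card_fun, Fintype.card_fin, nsmul_eq_mul]
    push_cast
    rw [Finset.sum_comm]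
    have h1 : ∀ S ∈ T, ∑ c : P → Fin m, ∑ τ ∈ D, ∏ j,
        ((((S.filter fun p => c p = j).card + r τ j).choose (r τ j) : ℕ) : ℝ) ≤
        ∑ τ ∈ D, (m : ℝ) ^ Fintype.card P * ((∏ j, 1 / ((r τ j).factorial : ℝ)) *
          (((N : ℝ) / m) ^ l + 2 * (l : ℝ) ^ 2 * ((N : ℝ) + l) ^ (l - 1))) := by
      intro S hS
      rw [Finset.sum_comm]
      refine Finset.sum_le_sum fun τ hτ => (avg_one S hl hm (r τ) (hr τ hτ)).trans ?_
      have h2 : (S.card : ℝ) ≤ N := by exact_mod_cast hT S hS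
      gcongr
    refine (Finset.sum_le_sum h1).trans (le_of_eq ?_)
    rw [Finset.sum_const, nsmul_eq_mul, ← Finset.mul_sum, ← Finset.sum_mul]
    ring
  obtain ⟨c, _, hc⟩ := Finset.exists_le_of_sum_le hne hsum
  exact ⟨c, hc⟩

end Pool.Agent.Helper80.CT
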