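import Pool.Agent.Helper80.CT.Defs

/-!
# Block CT-AVG: the average over the colourings

PROOF of `avg_one`.  Let `s = S.card` and let `col : Fin l → Fin m` take the value `j` exactly `r j` times (`∑ r j = l`; exists:
`Fin l ≃ Σ j, Fin (r j)`).  `(k + r).choose r ≤ (k + r)^r / r! ≤ (k + l)^r / r!` (`Nat.choose_le_pow_div`), so
`∏ j, (k_j + r_j).choose (r_j) ≤ (∏ 1 / (r j)!) ∏_{i : Fin l} (k_(col i) + l)`, `k_j = #{p ∈ S : c p = j}`, and the last product is the number of functions
`f : Fin l → S ⊕ Fin l` such that for all `i`: `f i` is in the second summand or `c (f i) = col i`.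
Sum over all `c : P → Fin m` and exchange the sums.  If `f` is injective and has values in the first summand then the number of
the `c` with `c (f i) = col i` for all `i` is `m ^ (card P - l)` (`Fintype.piFinset` with one value at the points `f i` and all values elsewhere;
`card P ≥ l` as `f` is injective); there are at most `s^l` such `f`.  The number of the other `f` is at most `2 l² (s + l)^(l-1)`: one of
the `l` values is in the second summand (`l` values for it, `(s+l)^(l-1)` for the others) or two of the values are equal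
(at most `l²` pairs); for them use the trivial bound `m ^ card P` for the number of the `c`.  (Any other way to get
`(s/m)^l + 2 l² (s+l)^(l-1)` is fine.)
-/

set_option autoImplicit false

namespace Pool.Agent.Helper80.CT

open Finset

private lemma prod_add_le {ι : Type} [DecidableEq ι] (T : Finset ι) (a : ι → ℝ) {s b : ℝ} (hb : 0 ≤ b)
    (ha : ∀ i, 0 ≤ a i) (has : ∀ i, a i ≤ s) :
    ∏ i ∈ T, (a i + b) ≤ ∏ i ∈ T, a i + (T.card : ℝ) * b * (s + b) ^ (T.card - 1) := by
  induction T using Finset.induction_on with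
  | empty => simp
  | insert i T hi ih =>
    rw [prod_insert hi, prod_insert hi, card_insert_of_notMem hi]
    have hs : 0 ≤ s := (ha i).trans (has i)
    have h1 : ∏ j ∈ T, (a j + b) ≤ (s + b) ^ T.card := by
      calc ∏ j ∈ T, (a j + b) ≤ ∏ _j ∈ T, (s + b) :=
            prod_le_prod (fun j _ => add_nonneg (ha j) hb) (fun j _ => by linarith [has j])
        _ = (s + b) ^ T.card := by rw [prod_const]
    have h2 : a i * ((T.card : ℝ) * b * (s + b) ^ (T.card - 1)) ≤
        (T.card : ℝ) * b * (s + b) ^ T.card := by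
      rcases Nat.eq_zero_or_pos T.card with h0 | h0
      · rw [h0]
        simp
      · obtain ⟨n, hn⟩ : ∃ n, T.card = n + 1 := ⟨T.card - 1, by omega⟩
        rw [hn, Nat.add_sub_cancel, pow_succ]
        have h3 : a i ≤ s + b := by linarith [has i]
        have h4 : 0 ≤ ((n + 1 : ℕ) : ℝ) * b * (s + b) ^ n := by positivity
        nlinarith
    have h5 : a i * ∏ j ∈ T, (a j + b) ≤
        a i * (∏ j ∈ T, a j + (T.card : ℝ) * b * (s + b) ^ (T.card - 1)) :=
      mul_le_mul_of_nonneg_left ih (ha i)
    have h6 : b * ∏ j ∈ T, (a j + b) ≤ b * (s + b) ^ T.card := mul_le_mul_of_nonneg_left h1 hb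
    have h7 : T.card + 1 - 1 = T.card := rfl
    rw [h7]
    push_cast
    nlinarith

private lemma exists_col {l m : ℕ} (r : Fin m → ℕ) (hr : ∑ j, r j = l) :
    ∃ col : Fin l → Fin m, ∀ F : Fin m → ℝ, ∏ j, F j ^ r j = ∏ i, F (col i) := by
  subst hr
  refine ⟨fun i => (finSigmaFinEquiv.symm i).1, fun F => ?_⟩
  rw [← Fintype.prod_equiv (finSigmaFinEquiv (n := r)) (fun x => F x.1) _ (fun x => by simp)]
  rw [Fintype.prod_sigma]
  refine prod_congr rfl fun j _ => ?_
  simp

open Classical in
private lemma card_inj {P : Type} [Fintype P] {l m : ℕ} (hm : 1 ≤ m) (col : Fin l → Fin m)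
    (f : Fin l → P) (hf : Function.Injective f) :
    (((univ : Finset (P → Fin m)).filter fun c => ∀ i, c (f i) = col i).card : ℝ) ≤
      (m : ℝ) ^ Fintype.card P / (m : ℝ) ^ l := by
  have h1 : ((univ : Finset (P → Fin m)).filter fun c => ∀ i, c (f i) = col i).card ≤
      (univ : Finset ({p : P // p ∉ Set.range f} → Fin m)).card := by
    apply card_le_card_of_injOn (fun c => fun p : {p : P // p ∉ Set.range f} => c p.1)
    · intro c _
      exact mem_univ _
    · intro c hc c' hc' h
      have hc1 : ∀ i, c (f i) = col i := (mem_filter.mp (mem_coe.mp hc)).2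
      have hc2 : ∀ i, c' (f i) = col i := (mem_filter.mp (mem_coe.mp hc')).2
      funext p
      by_cases hp : p ∈ Set.range f
      · obtain ⟨i, rfl⟩ := hp
        rw [hc1, hc2]
      · exact congrFun h ⟨p, hp⟩
  have h2 : Fintype.card {p : P // p ∉ Set.range f} + l = Fintype.card P := by
    have h3 := Fintype.card_subtype_compl (fun p : P => p ∈ Set.range f)
    have h4 : Fintype.card {p : P // p ∈ Set.range f} = l := by
      have h5 := Fintype.card_congr (Equiv.ofInjective f hf)
      rw [Fintype.card_fin] at h5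
      exact h5.symm
    have h6 : Fintype.card {p : P // p ∈ Set.range f} ≤ Fintype.card P := Fintype.card_subtype_le _
    rw [h4] at h3 h6
    omega
  rw [card_univ, Fintype.card_fun, Fintype.card_fin] at h1
  have hm0 : (0 : ℝ) < m := by exact_mod_cast hm
  rw [le_div_iff₀ (pow_pos hm0 l), ← h2, pow_add]
  exact mul_le_mul_of_nonneg_right (by exact_mod_cast h1) (pow_nonneg hm0.le l)

open Classical in
private lemma card_eq {P : Type} (S : Finset P) {l : ℕ} (i i' : Fin l) (h : i ≠ i') :
    ((Fintype.piFinset fun _ : Fin l => S).filter fun f => f i = f i').card ≤ S.card ^ (l - 1) := by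
  have h1 : ((Fintype.piFinset fun _ : Fin l => S).filter fun f => f i = f i').card ≤
      (Fintype.piFinset fun _ : {x : Fin l // x ≠ i'} => S).card := by
    apply card_le_card_of_injOn (fun f => fun x : {x : Fin l // x ≠ i'} => f x.1)
    · intro f hf
      have hf1 := (mem_filter.mp (mem_coe.mp hf)).1
      rw [Fintype.mem_piFinset] at hf1
      rw [mem_coe, Fintype.mem_piFinset]
      exact fun x => hf1 x.1
    · intro f hf g hg hfg
      have hf1 : f i = f i' := (mem_filter.mp (mem_coe.mp hf)).2
      have hg1 : g i = g i' := (mem_filter.mp (mem_coe.mp hg)).2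
      funext x
      by_cases hx : x = i'
      · subst hx
        rw [← hf1, ← hg1]
        exact congrFun hfg ⟨i, h⟩
      · exact congrFun hfg ⟨x, hx⟩
  rw [Fintype.card_piFinset, prod_const, card_univ] at h1
  have h2 : Fintype.card {x : Fin l // x ≠ i'} = l - 1 := by
    have h3 := Fintype.card_subtype_compl (fun x : Fin l => x = i')
    rw [Fintype.card_subtype_eq, Fintype.card_fin] at h3
    exact h3
  rwa [h2] at h1

open Classical in
private lemma card_noninj {P : Type} (S : Finset P) {l : ℕ} :
    (((Fintype.piFinset fun _ : Fin l => S).filter fun f => ¬ Function.Injective f).card : ℝ) ≤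
      (l : ℝ) ^ 2 * (S.card : ℝ) ^ (l - 1) := by
  have h1 : ((Fintype.piFinset fun _ : Fin l => S).filter fun f => ¬ Function.Injective f) ⊆
      ((univ : Finset (Fin l × Fin l)).filter fun x => x.1 ≠ x.2).biUnion fun x =>
        (Fintype.piFinset fun _ : Fin l => S).filter fun f => f x.1 = f x.2 := by
    intro f hf
    rw [mem_filter] at hf
    obtain ⟨hf1, hf2⟩ := hf
    rw [Function.Injective] at hf2
    push Not at hf2
    obtain ⟨i, i', h2, h3⟩ := hf2
    rw [mem_biUnion]
    exact ⟨(i, i'), mem_filter.mpr ⟨mem_univ _, h3⟩, mem_filter.mpr ⟨hf1, h2⟩⟩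
  have h2 := (card_le_card h1).trans card_biUnion_le
  have h3 : ∑ x ∈ ((univ : Finset (Fin l × Fin l)).filter fun x => x.1 ≠ x.2),
      ((Fintype.piFinset fun _ : Fin l => S).filter fun f => f x.1 = f x.2).card ≤
      l ^ 2 * S.card ^ (l - 1) := by
    calc ∑ x ∈ ((univ : Finset (Fin l × Fin l)).filter fun x => x.1 ≠ x.2),
        ((Fintype.piFinset fun _ : Fin l => S).filter fun f => f x.1 = f x.2).card
        ≤ ∑ _x ∈ ((univ : Finset (Fin l × Fin l)).filter fun x => x.1 ≠ x.2), S.card ^ (l - 1) :=
          sum_le_sum fun x hx => card_eq S x.1 x.2 (mem_filter.mp hx).2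
      _ = ((univ : Finset (Fin l × Fin l)).filter fun x => x.1 ≠ x.2).card * S.card ^ (l - 1) := by
          rw [sum_const, smul_eq_mul]
      _ ≤ l ^ 2 * S.card ^ (l - 1) := by
          apply Nat.mul_le_mul_right
          refine (card_filter_le _ _).trans ?_
          rw [card_univ, Fintype.card_prod, Fintype.card_fin, sq]
  exact_mod_cast h2.trans h3

open Classical in
theorem avg_one {P : Type} [Fintype P] (S : Finset P) {l m : ℕ} (hl : 1 ≤ l) (hm : 1 ≤ m) (r : Fin m → ℕ)
    (hr : ∑ j, r j = l) :
    ∑ c : P → Fin m, ∏ j, ((((S.filter fun p => c p = j).card + r j).choose (r j) : ℕ) : ℝ) ≤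
      (m : ℝ) ^ Fintype.card P * ((∏ j, 1 / ((r j).factorial : ℝ)) *
        (((S.card : ℝ) / m) ^ l + 2 * (l : ℝ) ^ 2 * ((S.card : ℝ) + l) ^ (l - 1))) := by
  obtain ⟨col, hcol⟩ := exists_col r hr
  have hm0 : (0 : ℝ) < m := by exact_mod_cast hm
  have hrl : ∀ j, r j ≤ l := by
    intro j
    rw [← hr]
    exact single_le_sum (fun i _ => Nat.zero_le _) (mem_univ j)
  have hW : 0 ≤ ∏ j, 1 / ((r j).factorial : ℝ) := prod_nonneg fun j _ => by positivity
  -- the bound for one colouring
  have step1 : ∀ c : P → Fin m,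
      ∏ j, ((((S.filter fun p => c p = j).card + r j).choose (r j) : ℕ) : ℝ) ≤
      (∏ j, 1 / ((r j).factorial : ℝ)) *
        (∏ i, ((S.filter fun p => c p = col i).card : ℝ) + (l : ℝ) * l * ((S.card : ℝ) + l) ^ (l - 1)) := by
    intro c
    have h1 : ∏ j, ((((S.filter fun p => c p = j).card + r j).choose (r j) : ℕ) : ℝ) ≤
        ∏ j, (1 / ((r j).factorial : ℝ) * (((S.filter fun p => c p = j).card : ℝ) + l) ^ r j) := by
      apply prod_le_prod
      · intro j _
        positivity
      · intro j _
        have h2 : ((((S.filter fun p => c p = j).card + r j).choose (r j) : ℕ) : ℝ) ≤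
            ((((S.filter fun p => c p = j).card + r j : ℕ)) : ℝ) ^ r j / ((r j).factorial : ℝ) :=
          Nat.choose_le_pow_div (r j) _
        have h3 : ((((S.filter fun p => c p = j).card + r j : ℕ)) : ℝ) ≤
            ((S.filter fun p => c p = j).card : ℝ) + l := by
          push_cast
          have : (r j : ℝ) ≤ l := by exact_mod_cast hrl j
          linarith
        refine h2.trans ?_
        rw [div_eq_mul_one_div, mul_comm]
        apply mul_le_mul_of_nonneg_left _ (by positivity)
        exact pow_le_pow_left₀ (by positivity) h3 _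
    rw [prod_mul_distrib, hcol (fun j => ((S.filter fun p => c p = j).card : ℝ) + l)] at h1
    refine h1.trans (mul_le_mul_of_nonneg_left ?_ hW)
    have h4 := prod_add_le (univ : Finset (Fin l))
      (fun i => ((S.filter fun p => c p = col i).card : ℝ)) (s := (S.card : ℝ)) (b := (l : ℝ))
      (by positivity) (fun i => by positivity) (fun i => by exact_mod_cast card_filter_le _ _)
    rw [card_univ, Fintype.card_fin] at h4
    exact h4
  -- the sum of the main terms
  have step2 : ∑ c : P → Fin m, ∏ i, ((S.filter fun p => c p = col i).card : ℝ) ≤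
      (S.card : ℝ) ^ l * ((m : ℝ) ^ Fintype.card P / (m : ℝ) ^ l) +
        (l : ℝ) ^ 2 * (S.card : ℝ) ^ (l - 1) * (m : ℝ) ^ Fintype.card P := by
    have h1 : ∀ c : P → Fin m, ∏ i, ((S.filter fun p => c p = col i).card : ℝ) =
        ∑ f ∈ Fintype.piFinset (fun _ : Fin l => S), if ∀ i, c (f i) = col i then (1 : ℝ) else 0 := by
      intro c
      have h2 : ∀ i, ((S.filter fun p => c p = col i).card : ℝ) =
          ∑ p ∈ S, if c p = col i then (1 : ℝ) else 0 := by
        intro i
        rw [sum_boole]
      simp_rw [h2]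
      rw [prod_univ_sum]
      refine sum_congr rfl fun f _ => ?_
      rw [prod_ite_zero]
      simp
    simp_rw [h1]
    rw [sum_comm]
    have h3 : ∀ f : Fin l → P, ∑ c : P → Fin m, (if ∀ i, c (f i) = col i then (1 : ℝ) else 0) =
        (((univ : Finset (P → Fin m)).filter fun c => ∀ i, c (f i) = col i).card : ℝ) := by
      intro f
      rw [sum_boole]
    simp_rw [h3]
    rw [← sum_filter_add_sum_filter_not (Fintype.piFinset fun _ : Fin l => S)
      (fun f => Function.Injective f)]
    apply add_le_add
    · calc ∑ f ∈ (Fintype.piFinset fun _ : Fin l => S).filter (fun f => Function.Injective f),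
            (((univ : Finset (P → Fin m)).filter fun c => ∀ i, c (f i) = col i).card : ℝ)
          ≤ ∑ _f ∈ (Fintype.piFinset fun _ : Fin l => S).filter (fun f => Function.Injective f),
            (m : ℝ) ^ Fintype.card P / (m : ℝ) ^ l :=
            sum_le_sum fun f hf => card_inj hm col f (mem_filter.mp hf).2
        _ = (((Fintype.piFinset fun _ : Fin l => S).filter (fun f => Function.Injective f)).card : ℝ) *
            ((m : ℝ) ^ Fintype.card P / (m : ℝ) ^ l) := by rw [sum_const, nsmul_eq_mul]
        _ ≤ (S.card : ℝ) ^ l * ((m : ℝ) ^ Fintype.card P / (m : ℝ) ^ l) := by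
            apply mul_le_mul_of_nonneg_right _ (by positivity)
            have h4 := card_filter_le (Fintype.piFinset fun _ : Fin l => S)
              (fun f => Function.Injective f)
            rw [Fintype.card_piFinset, prod_const, card_univ, Fintype.card_fin] at h4
            exact_mod_cast h4
    · calc ∑ f ∈ (Fintype.piFinset fun _ : Fin l => S).filter (fun f => ¬ Function.Injective f),
            (((univ : Finset (P → Fin m)).filter fun c => ∀ i, c (f i) = col i).card : ℝ)
          ≤ ∑ _f ∈ (Fintype.piFinset fun _ : Fin l => S).filter (fun f => ¬ Function.Injective f),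
            (m : ℝ) ^ Fintype.card P := by
            refine sum_le_sum fun f _ => ?_
            have h4 := card_filter_le (univ : Finset (P → Fin m)) (fun c => ∀ i, c (f i) = col i)
            rw [card_univ, Fintype.card_fun, Fintype.card_fin] at h4
            exact_mod_cast h4
        _ = (((Fintype.piFinset fun _ : Fin l => S).filter
            (fun f => ¬ Function.Injective f)).card : ℝ) * (m : ℝ) ^ Fintype.card P := by
            rw [sum_const, nsmul_eq_mul]
        _ ≤ (l : ℝ) ^ 2 * (S.card : ℝ) ^ (l - 1) * (m : ℝ) ^ Fintype.card P :=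
            mul_le_mul_of_nonneg_right (card_noninj S) (by positivity)
  calc ∑ c : P → Fin m, ∏ j, ((((S.filter fun p => c p = j).card + r j).choose (r j) : ℕ) : ℝ)
      ≤ ∑ c : P → Fin m, (∏ j, 1 / ((r j).factorial : ℝ)) *
        (∏ i, ((S.filter fun p => c p = col i).card : ℝ) + (l : ℝ) * l * ((S.card : ℝ) + l) ^ (l - 1)) :=
        sum_le_sum fun c _ => step1 c
    _ = (∏ j, 1 / ((r j).factorial : ℝ)) *
        (∑ c : P → Fin m, ∏ i, ((S.filter fun p => c p = col i).card : ℝ) +
          (m : ℝ) ^ Fintype.card P * ((l : ℝ) * l * ((S.card : ℝ) + l) ^ (l - 1))) := by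
        rw [← mul_sum, sum_add_distrib, sum_const, card_univ, Fintype.card_fun, Fintype.card_fin,
          nsmul_eq_mul]
        push_cast
        ring
    _ ≤ (∏ j, 1 / ((r j).factorial : ℝ)) *
        (((S.card : ℝ) ^ l * ((m : ℝ) ^ Fintype.card P / (m : ℝ) ^ l) +
        (l : ℝ) ^ 2 * (S.card : ℝ) ^ (l - 1) * (m : ℝ) ^ Fintype.card P) +
          (m : ℝ) ^ Fintype.card P * ((l : ℝ) * l * ((S.card : ℝ) + l) ^ (l - 1))) :=
        mul_le_mul_of_nonneg_left (add_le_add_left step2 _) hW
    _ ≤ (∏ j, 1 / ((r j).factorial : ℝ)) *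
        (((S.card : ℝ) ^ l * ((m : ℝ) ^ Fintype.card P / (m : ℝ) ^ l) +
        (l : ℝ) ^ 2 * ((S.card : ℝ) + l) ^ (l - 1) * (m : ℝ) ^ Fintype.card P) +
          (m : ℝ) ^ Fintype.card P * ((l : ℝ) * l * ((S.card : ℝ) + l) ^ (l - 1))) := by
        apply mul_le_mul_of_nonneg_left _ hW
        have h5 : (S.card : ℝ) ^ (l - 1) ≤ ((S.card : ℝ) + l) ^ (l - 1) :=
          pow_le_pow_left₀ (by positivity) (by linarith [show (0 : ℝ) ≤ l from by positivity]) _
        gcongr
    _ = (m : ℝ) ^ Fintype.card P * ((∏ j, 1 / ((r j).factorial : ℝ)) *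
        (((S.card : ℝ) / m) ^ l + 2 * (l : ℝ) ^ 2 * ((S.card : ℝ) + l) ^ (l - 1))) := by
        rw [div_pow]
        ring

end Pool.Agent.Helper80.CT
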