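import Pool.Agent.Helper80.CT.Check

/-!
# Certificates: soundness
-/

set_option autoImplicit false

namespace Pool.Agent.Helper80.CT

open Finset

/-- The digits to the base 65536. -/
def digs : ℕ → ℕ → List ℕ
  | 0, _ => []
  | k + 1, n => Nat.mod n 65536 :: digs k (Nat.div n 65536)

theorem length_digs : ∀ k n, (digs k n).length = k
  | 0, _ => rfl
  | k + 1, n => by
    unfold digs
    rw [List.length_cons, length_digs k]

/-- The mask number `t` of a table of masks. -/
def mkT (B w t : ℕ) : ℕ := Nat.mod (Nat.shiftRight B (Nat.mul w t)) (2 ^ w)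

def sumpc (l M : ℕ) : ℕ → ℕ
  | 0 => 0
  | j + 1 => Nat.add (sumpc l M j) (pc M (j * 2 ^ l) (2 ^ l))

def allpc (l M : ℕ) : ℕ → Bool
  | 0 => true
  | j + 1 => Nat.blt 0 (pc M (j * 2 ^ l) (2 ^ l)) && allpc l M j

/-- The weight of a cell times `l! ^ m`. -/
def fw (l M : ℕ) : ℕ → ℕ
  | 0 => 1
  | j + 1 => Nat.mul (fw l M j) (l.factorial / (pc M (j * 2 ^ l) (2 ^ l) - 1).factorial)

/-- Check of one cell with mask `M` and record `r`. -/
def chkR (l m N B : ℕ) (H : List ℕ) (t M r : ℕ) : Bool :=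
  Nat.beq (mkT B (m * 2 ^ l) t) M &&
    (Nat.blt 0 (Nat.mod (Nat.div r (65536 ^ (l + m))) 65536) &&
    (Nat.beq (sumpc l M m) (l + m) &&
    (allpc l M m &&
    walk (mkT B (m * 2 ^ l)) M (Nat.mod (Nat.div r (65536 ^ (l + m))) 65536) (N + (2 * l + m))
      (tab (subs l (digs l r)) (digs m (Nat.div r (65536 ^ l)))) H 0
      (digs (l + m) (Nat.div r (65536 ^ (l + m + 1)))))))

def chkAll (l m N B : ℕ) (H : List ℕ) : ℕ → List (ℕ × ℕ) → Bool
  | _, [] => true
  | t, x :: R => chkR l m N B H t x.1 x.2 && chkAll l m N B H (Nat.succ t) R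

/-- The sum of the weights times `l! ^ m`. -/
def wsum (l m : ℕ) : List (ℕ × ℕ) → ℕ
  | [] => 0
  | x :: R => Nat.add (fw l x.1 m) (wsum l m R)

theorem chkAll_sound (l m N B : ℕ) (H : List ℕ) : ∀ (R : List (ℕ × ℕ)) (t : ℕ),
    chkAll l m N B H t R = true → ∀ a (ha : a < R.length), chkR l m N B H (t + a) R[a].1 R[a].2 = true
  | [], _, _, a, ha => absurd ha (by simp)
  | x :: R, t, h, a, ha => by
    unfold chkAll at h
    rw [Bool.and_eq_true] at h
    cases a with
    | zero => exact h.1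
    | succ a =>
      have h1 := chkAll_sound l m N B H R _ h.2 a (by simpa using ha)
      have e : Nat.succ t + a = t + (a + 1) := by omega
      rw [e] at h1
      exact h1

theorem sumpc_eq (l M : ℕ) : ∀ n, sumpc l M n = ∑ j ∈ Finset.range n, pc M (j * 2 ^ l) (2 ^ l)
  | 0 => by simp [sumpc]
  | n + 1 => by
    rw [Finset.sum_range_succ, ← sumpc_eq l M n]
    rfl

theorem allpc_sound (l M : ℕ) : ∀ n, allpc l M n = true → ∀ j < n, 1 ≤ pc M (j * 2 ^ l) (2 ^ l)
  | 0, _, j, hj => absurd hj (by simp)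
  | n + 1, h, j, hj => by
    unfold allpc at h
    rw [Bool.and_eq_true] at h
    rcases Nat.lt_succ_iff_lt_or_eq.1 hj with h1 | h1
    · exact allpc_sound l M n h.2 j h1
    · subst h1
      exact (by simpa [Nat.blt_eq] using h.1 : 0 < pc M (j * 2 ^ l) (2 ^ l))

theorem fw_eq (l M : ℕ) : ∀ n, fw l M n =
    ∏ j ∈ Finset.range n, (l.factorial / (pc M (j * 2 ^ l) (2 ^ l) - 1).factorial)
  | 0 => by simp [fw]
  | n + 1 => by
    rw [Finset.prod_range_succ, ← fw_eq l M n]
    rfl

/-- The properties of a checked cell. -/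
structure Good (l m N B : ℕ) (H : List ℕ) (t : ℕ) (L : (Fin l → ℝ) × (Fin m → ℝ) →ₗ[ℝ] ℝ) : Prop where
  sum : ∑ j : Fin m, pc (mkT B (m * 2 ^ l) t) (j * 2 ^ l) (2 ^ l) = l + m
  pos : ∀ j : Fin m, 1 ≤ pc (mkT B (m * 2 ^ l) t) (j * 2 ^ l) (2 ^ l)
  eq : ∀ p, (mkT B (m * 2 ^ l) t).testBit (ix p) = true → L (prA l m p) = H.getD (ix p) 0
  lt : ∀ p, (mkT B (m * 2 ^ l) t).testBit (ix p) = false → L (prA l m p) < H.getD (ix p) 0
  nb : ∀ p : (Fin l → Bool) × Fin m, (mkT B (m * 2 ^ l) t).testBit (ix p) = true → ∃ b, b < N + (2 * l + m) ∧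
    mkT B (m * 2 ^ l) b &&& mkT B (m * 2 ^ l) t = mkT B (m * 2 ^ l) t ^^^ 2 ^ (ix p)

theorem ix_lt {l m : ℕ} (p : (Fin l → Bool) × Fin m) : ix p < m * 2 ^ l := by
  unfold ix
  have h1 := iv_lt p.1
  have h2 : ((p.2 : ℕ) + 1) * 2 ^ l ≤ m * 2 ^ l := Nat.mul_le_mul_right _ p.2.2
  rw [add_mul, one_mul] at h2
  omega

theorem chkR_sound {l m N B : ℕ} {H : List ℕ} {t M r : ℕ} (h : chkR l m N B H t M r = true) :
    mkT B (m * 2 ^ l) t = M ∧ ∃ L, Good l m N B H t L := by
  unfold chkR at h
  simp only [Bool.and_eq_true] at h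
  obtain ⟨h1, h2, h3, h4, h5⟩ := h
  have h1' := Nat.eq_of_beq_eq_true h1
  have h2' : 0 < Nat.mod (Nat.div r (65536 ^ (l + m))) 65536 := by simpa [Nat.blt_eq] using h2
  have h3' := Nat.eq_of_beq_eq_true h3
  refine ⟨h1', ell l m (digs l r) (digs m (Nat.div r (65536 ^ l)))
    (Nat.mod (Nat.div r (65536 ^ (l + m))) 65536), ?_⟩
  obtain ⟨h6, h7⟩ := walk_sound _ _ _ _ _ _ _ _ h5
  rw [length_tab, length_subs, length_digs] at h6 h7
  have hdl : (0 : ℝ) < (Nat.mod (Nat.div r (65536 ^ (l + m))) 65536 : ℕ) := by exact_mod_cast h2'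
  subst h1'
  refine ⟨?_, ?_, ?_, ?_, ?_⟩
  · rw [← h3', sumpc_eq, Finset.sum_range]
  · intro j
    exact allpc_sound l _ m h4 j j.2
  · intro p hp
    have h8 := (h7 (ix p) (ix_lt p)).1 (by rw [zero_add]; exact hp)
    rw [ell_A _ _ _ (length_digs _ _), h8.1]
    push_cast
    rw [mul_div_assoc, mul_comm, div_mul_cancel₀ _ hdl.ne']
  · intro p hp
    have h8 := (h7 (ix p) (ix_lt p)).2 (by rw [zero_add]; exact hp)
    rw [ell_A _ _ _ (length_digs _ _), div_lt_iff₀ hdl, mul_comm]
    exact_mod_cast h8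
  · intro p hp
    have h8 := (h7 (ix p) (ix_lt p)).1 (by rw [zero_add]; exact hp)
    rw [zero_add] at h8
    exact h8.2

theorem wt_cellM {l m M : ℕ} (h1 : ∀ j : Fin m, 1 ≤ pc M (j * 2 ^ l) (2 ^ l))
    (h2 : ∑ j : Fin m, pc M (j * 2 ^ l) (2 ^ l) = l + m) :
    ∑ j, rr (cellM l m M) j = l ∧ wt (cellM l m M) = (fw l M m : ℝ) / (l.factorial : ℝ) ^ m := by
  have h3 : ∀ j : Fin m, rr (cellM l m M) j = pc M (j * 2 ^ l) (2 ^ l) - 1 := by
    intro j
    unfold rr
    rw [lay_card]
  have h4 : ∑ j, rr (cellM l m M) j = l := by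
    have h5 : ∑ j : Fin m, (rr (cellM l m M) j + 1) = l + m := by
      rw [← h2]
      refine Finset.sum_congr rfl fun j _ => ?_
      rw [h3]
      exact Nat.sub_add_cancel (h1 j)
    rw [Finset.sum_add_distrib] at h5
    simp only [Finset.sum_const, Finset.card_univ, Fintype.card_fin, smul_eq_mul, mul_one] at h5
    omega
  refine ⟨h4, ?_⟩
  unfold wt
  rw [fw_eq, Finset.prod_range]
  push_cast
  have h6 : (l.factorial : ℝ) ^ m = ∏ _j : Fin m, (l.factorial : ℝ) := by simp
  rw [h6, ← Finset.prod_div_distrib]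
  refine Finset.prod_congr rfl fun j _ => ?_
  have h7 : rr (cellM l m M) j ≤ l := by
    conv_rhs => rw [← h4]
    exact Finset.single_le_sum (f := fun j => rr (cellM l m M) j) (fun _ _ => Nat.zero_le _) (Finset.mem_univ j)
  rw [← h3 j, Nat.cast_div (Nat.factorial_dvd_factorial h7) (by exact_mod_cast (Nat.factorial_pos _).ne')]
  have h8 : (l.factorial : ℝ) ≠ 0 := by exact_mod_cast (Nat.factorial_pos _).ne'
  have h9 : ((rr (cellM l m M) j).factorial : ℝ) ≠ 0 := by exact_mod_cast (Nat.factorial_pos _).ne'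
  field_simp

theorem wsum_eq (l m : ℕ) : ∀ R : List (ℕ × ℕ), wsum l m R = ∑ t : Fin R.length, fw l R[t].1 m
  | [] => by simp [wsum]
  | x :: R => by
    unfold wsum
    rw [wsum_eq l m R]
    simp only [List.length_cons, Fin.sum_univ_succ]
    rfl

theorem sum_image_le' {ι α : Type} [Fintype ι] [DecidableEq α] (f : ι → α) (g : α → ℝ) (hg : ∀ x, 0 ≤ g x) :
    ∑ x ∈ Finset.univ.image f, g x ≤ ∑ t, g (f t) := by
  have h1 : ∑ t, g (f t) = ∑ x ∈ Finset.univ.image f, ∑ t ∈ Finset.univ.filter (fun t => f t = x), g (f t) :=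
    (Finset.sum_fiberwise_of_maps_to (fun t _ => Finset.mem_image_of_mem f (Finset.mem_univ t)) _).symm
  rw [h1]
  refine Finset.sum_le_sum fun x hx => ?_
  obtain ⟨t, -, rfl⟩ := Finset.mem_image.1 hx
  exact Finset.single_le_sum (f := fun s => g (f s)) (fun s _ => hg _)
    (Finset.mem_filter.2 ⟨Finset.mem_univ t, rfl⟩)

theorem cert (l m B : ℕ) (H : List ℕ) (R : List (ℕ × ℕ)) (hR : 0 < R.length)
    (h : chkAll l m R.length B H 0 R = true)
    (hx : ∀ (i : Fin l) (p : (Fin l → Bool) × Fin m),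
      (mkT B (m * 2 ^ l) (R.length + i)).testBit (ix p) = !(p.1 i))
    (hy : ∀ (i : Fin l) (p : (Fin l → Bool) × Fin m),
      (mkT B (m * 2 ^ l) (R.length + l + i)).testBit (ix p) = p.1 i)
    (hm : ∀ (j : Fin m) (p : (Fin l → Bool) × Fin m),
      (mkT B (m * 2 ^ l) (R.length + 2 * l + j)).testBit (ix p) = !decide (p.2 = j)) :
    ∃ D : Finset (Finset ((Fin l → Bool) × Fin m)), Tri (prA l m) (prK l m) D ∧
      (∀ τ ∈ D, ∑ j, rr τ j = l) ∧ ∑ τ ∈ D, wt τ ≤ (wsum l m R : ℝ) / (l.factorial : ℝ) ^ m := by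
  have h1 : ∀ t : Fin R.length, mkT B (m * 2 ^ l) t = R[t].1 ∧ ∃ L, Good l m R.length B H t L := by
    intro t
    have h2 := chkR_sound (chkAll_sound l m R.length B H R 0 h t t.2)
    rw [zero_add] at h2
    exact h2
  choose h2 L hL using h1
  haveI : Nonempty (Fin R.length) := ⟨⟨0, hR⟩⟩
  let cell : Fin R.length → Finset ((Fin l → Bool) × Fin m) := fun t => cellM l m (mkT B (m * 2 ^ l) t)
  have hmem : ∀ t p, p ∈ cell t ↔ (mkT B (m * 2 ^ l) t).testBit (ix p) = true := fun t p => mem_cellM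
  refine ⟨Finset.univ.image cell, ?_, ?_, ?_⟩
  · refine reg_fin (prA l m) (prK l m) cell (fun p => (H.getD (ix p) 0 : ℝ)) L ?_ ?_ ?_ ?_
    · intro t
      rw [Module.finrank_prod, Module.finrank_fin_fun, Module.finrank_fin_fun, ← (hL t).sum]
      exact cell_card _
    · intro t p hp
      exact (hL t).eq p ((hmem t p).1 hp)
    · intro t p hp
      refine (hL t).lt p ?_
      rw [hmem] at hp
      simpa using hp
    · intro t p hp
      rw [hmem] at hp
      obtain ⟨b, hb, hb2⟩ := (hL t).nb p hp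
      -- the bits of the neighbour
      have hbit : ∀ q : (Fin l → Bool) × Fin m, (mkT B (m * 2 ^ l) t).testBit (ix q) = true →
          (mkT B (m * 2 ^ l) b).testBit (ix q) = !decide (ix p = ix q) := by
        intro q hq
        have h3 := congrArg (fun n => Nat.testBit n (ix q)) hb2
        simp only [Nat.testBit_and, Nat.testBit_xor, hq, Bool.and_true, Nat.testBit_two_pow,
          Bool.true_xor] at h3
        exact h3
      have hp0 : (mkT B (m * 2 ^ l) b).testBit (ix p) = false := by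
        rw [hbit p hp]
        simp
      have hq1 : ∀ q ∈ cell t, q ≠ p → (mkT B (m * 2 ^ l) b).testBit (ix q) = true := by
        intro q hq hqp
        rw [hbit q ((hmem t q).1 hq)]
        have : ix p ≠ ix q := fun h => hqp (ix_inj _ _ h.symm)
        simp [this]
      by_cases hbN : b < R.length
      · refine Or.inr ⟨⟨b, hbN⟩, ?_, ?_⟩
        · rw [hmem]
          simp [hp0]
        · intro q hq hqp
          rw [hmem]
          exact hq1 q hq hqp
      · refine Or.inl ?_
        by_cases hb1 : b < R.length + l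
        · -- the facet x_i = 0
          obtain ⟨i, hi⟩ : ∃ i : Fin l, b = R.length + i := ⟨⟨b - R.length, by omega⟩, by simp; omega⟩
          have hf : ∀ q : (Fin l → Bool) × Fin m,
              ((LinearMap.proj i).comp (LinearMap.fst ℝ (Fin l → ℝ) (Fin m → ℝ))) (prA l m q) = vx q.1 i :=
            fun q => rfl
          refine ⟨(LinearMap.proj i).comp (LinearMap.fst ℝ (Fin l → ℝ) (Fin m → ℝ)), ?_, ?_, ?_⟩
          · intro z hz
            exact (hz.1 i).1
          · rw [hf]
            rw [hi, hx] at hp0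
            have h4 : p.1 i = true := by simpa using hp0
            simp [vx, h4]
          · intro q hq hqp
            rw [hf]
            have h4 := hq1 q hq hqp
            rw [hi, hx] at h4
            have h5 : q.1 i = false := by simpa using h4
            simp [vx, h5]
        · by_cases hb3 : b < R.length + l + l
          · -- the facet x_i = 1
            obtain ⟨i, hi⟩ : ∃ i : Fin l, b = R.length + l + i :=
              ⟨⟨b - R.length - l, by omega⟩, by simp; omega⟩
            let f : (Fin l → ℝ) × (Fin m → ℝ) →ₗ[ℝ] ℝ :=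
              (∑ j : Fin m, (LinearMap.proj j).comp (LinearMap.snd ℝ (Fin l → ℝ) (Fin m → ℝ))) -
                (LinearMap.proj i).comp (LinearMap.fst ℝ (Fin l → ℝ) (Fin m → ℝ))
            have hf0 : ∀ z, f z = ∑ j, z.2 j - z.1 i := by
              intro z
              simp [f, LinearMap.sum_apply]
            have hf : ∀ q : (Fin l → Bool) × Fin m, f (prA l m q) = 1 - vx q.1 i := by
              intro q
              rw [hf0]
              simp [prA]
            refine ⟨f, ?_, ?_, ?_⟩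
            · intro z hz
              rw [hf0, hz.2.2]
              linarith [(hz.1 i).2]
            · rw [hf]
              rw [hi, hy] at hp0
              simp [vx, hp0]
            · intro q hq hqp
              rw [hf]
              have h4 := hq1 q hq hqp
              rw [hi, hy] at h4
              simp [vx, h4]
          · -- the facet of the simplex
            obtain ⟨j, hj⟩ : ∃ j : Fin m, b = R.length + 2 * l + j :=
              ⟨⟨b - R.length - 2 * l, by omega⟩, by simp; omega⟩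
            have hf : ∀ q : (Fin l → Bool) × Fin m,
                ((LinearMap.proj j).comp (LinearMap.snd ℝ (Fin l → ℝ) (Fin m → ℝ))) (prA l m q) =
                  (Pi.single q.2 (1 : ℝ) : Fin m → ℝ) j := fun q => rfl
            refine ⟨(LinearMap.proj j).comp (LinearMap.snd ℝ (Fin l → ℝ) (Fin m → ℝ)), ?_, ?_, ?_⟩
            · intro z hz
              exact hz.2.1 j
            · rw [hf]
              rw [hj, hm] at hp0
              have h4 : p.2 = j := by simpa using hp0
              simp [h4]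
            · intro q hq hqp
              rw [hf]
              have h4 := hq1 q hq hqp
              rw [hj, hm] at h4
              have h5 : ¬ q.2 = j := by simpa using h4
              simp [Pi.single_apply, Ne.symm h5]
  · intro τ hτ
    obtain ⟨t, -, rfl⟩ := Finset.mem_image.1 hτ
    exact (wt_cellM (hL t).pos (hL t).sum).1
  · refine (sum_image_le' cell wt fun τ => ?_).trans (le_of_eq ?_)
    · unfold wt
      exact Finset.prod_nonneg fun _ _ => by positivity
    · rw [wsum_eq]
      push_cast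
      rw [Finset.sum_div]
      refine Finset.sum_congr rfl fun t _ => ?_
      rw [← h2 t]
      exact (wt_cellM (hL t).pos (hL t).sum).2

theorem cert' (l m N B : ℕ) (H : List ℕ) (R : List (ℕ × ℕ)) (hN : R.length = N) (hR : 0 < N)
    (h : chkAll l m N B H 0 R = true)
    (hx : ∀ (i : Fin l) (p : (Fin l → Bool) × Fin m),
      (mkT B (m * 2 ^ l) (N + i)).testBit (ix p) = !(p.1 i))
    (hy : ∀ (i : Fin l) (p : (Fin l → Bool) × Fin m),
      (mkT B (m * 2 ^ l) (N + l + i)).testBit (ix p) = p.1 i)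
    (hm : ∀ (j : Fin m) (p : (Fin l → Bool) × Fin m),
      (mkT B (m * 2 ^ l) (N + 2 * l + j)).testBit (ix p) = !decide (p.2 = j)) :
    ∃ D : Finset (Finset ((Fin l → Bool) × Fin m)), Tri (prA l m) (prK l m) D ∧
      (∀ τ ∈ D, ∑ j, rr τ j = l) ∧ ∑ τ ∈ D, wt τ ≤ (wsum l m R : ℝ) / (l.factorial : ℝ) ^ m := by
  subst hN
  exact cert l m B H R hR h hx hy hm

end Pool.Agent.Helper80.CT
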