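import Pool.Agent.Helper80.CT.Index

/-!
# Checking a certificate of a regular triangulation of (cube) x (simplex)

The cells are bit masks; `T` is the table of the values of a linear function (times `dl`) on the vertices, `H` the
table of the heights.
-/

set_option autoImplicit false

namespace Pool.Agent.Helper80.CT

open Finset

/-- Values and neighbours of one cell with the mask `M`. -/
def walk (mk : ℕ → ℕ) (M dl Nb : ℕ) : List ℕ → List ℕ → ℕ → List ℕ → Bool
  | [], H, _, _ => H.isEmpty
  | t :: T, H, k, nb =>
    match H with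
    | [] => false
    | h :: H =>
      bif Nat.testBit M k then
        match nb with
        | [] => false
        | b :: nb => Nat.beq t (Nat.mul dl h) && (Nat.blt b Nb &&
            (Nat.beq (Nat.land (mk b) M) (Nat.xor M (2 ^ k)) && walk mk M dl Nb T H (Nat.succ k) nb))
      else Nat.blt t (Nat.mul dl h) && walk mk M dl Nb T H (Nat.succ k) nb

theorem walk_sound (mk : ℕ → ℕ) (M dl Nb : ℕ) : ∀ (T H : List ℕ) (k : ℕ) (nb : List ℕ),
    walk mk M dl Nb T H k nb = true → T.length = H.length ∧ ∀ a, a < T.length →
      (M.testBit (k + a) = true → T.getD a 0 = dl * H.getD a 0 ∧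
        ∃ b, b < Nb ∧ (mk b) &&& M = M ^^^ 2 ^ (k + a)) ∧
      (M.testBit (k + a) = false → T.getD a 0 < dl * H.getD a 0)
  | [], H, _, _, h => by
    have h1 : H = [] := by
      cases H with
      | nil => rfl
      | cons x H => simp [walk] at h
    subst h1
    exact ⟨rfl, fun a ha => absurd ha (by simp)⟩
  | t :: T, [], _, _, h => by simp [walk] at h
  | t :: T, x :: H, k, nb, h => by
    unfold walk at h
    cases hb : M.testBit k with
    | false =>
      simp only [hb, cond_false, Bool.and_eq_true] at h
      obtain ⟨h1, h2⟩ := h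
      obtain ⟨h3, h4⟩ := walk_sound mk M dl Nb T H (Nat.succ k) nb h2
      refine ⟨by simp [h3], fun a ha => ?_⟩
      cases a with
      | zero =>
        rw [add_zero, hb]
        refine ⟨fun h' => absurd h' (by simp), fun _ => ?_⟩
        simpa [Nat.blt_eq] using h1
      | succ a =>
        have h5 := h4 a (by simpa using ha)
        have e : Nat.succ k + a = k + (a + 1) := by omega
        rw [e] at h5
        simpa using h5
    | true =>
      simp only [hb, cond_true] at h
      cases nb with
      | nil => simp at h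
      | cons b nb =>
        simp only [Bool.and_eq_true] at h
        obtain ⟨h1, h2, h6, h7⟩ := h
        obtain ⟨h3, h4⟩ := walk_sound mk M dl Nb T H (Nat.succ k) nb h7
        refine ⟨by simp [h3], fun a ha => ?_⟩
        cases a with
        | zero =>
          rw [add_zero, hb]
          refine ⟨fun _ => ⟨?_, b, ?_, ?_⟩, fun h' => absurd h' (by simp)⟩
          · simpa using Nat.eq_of_beq_eq_true h1
          · simpa [Nat.blt_eq] using h2
          · exact Nat.eq_of_beq_eq_true h6
        | succ a =>
          have h5 := h4 a (by simpa using ha)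
          have e : Nat.succ k + a = k + (a + 1) := by omega
          rw [e] at h5
          simpa using h5

/-- The number of bits of `M` at the places `a, ..., a + n - 1`. -/
def pc (M a : ℕ) : ℕ → ℕ
  | 0 => 0
  | n + 1 => Nat.add (pc M a n) (Bool.toNat (Nat.testBit M (Nat.add a n)))

theorem pc_eq (M a : ℕ) : ∀ n, pc M a n = ((Finset.range n).filter fun i => M.testBit (a + i) = true).card
  | 0 => by simp [pc]
  | n + 1 => by
    unfold pc
    rw [pc_eq M a n, Finset.range_add_one, Finset.filter_insert]
    cases hb : M.testBit (a + n) with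
    | false =>
      rw [if_neg (by simp)]
      rfl
    | true =>
      rw [if_pos rfl, Finset.card_insert_of_notMem (by simp)]
      rfl

/-- The cell with the mask `M`. -/
def cellM (l m M : ℕ) : Finset ((Fin l → Bool) × Fin m) := Finset.univ.filter fun p => M.testBit (ix p) = true

theorem mem_cellM {l m M : ℕ} {p : (Fin l → Bool) × Fin m} : p ∈ cellM l m M ↔ M.testBit (ix p) = true := by
  simp [cellM]

theorem lay_card {l m : ℕ} (M : ℕ) (j : Fin m) : (lay (cellM l m M) j).card = pc M (j * 2 ^ l) (2 ^ l) := by
  rw [pc_eq]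
  refine Finset.card_bij (fun v _ => iv v) ?_ ?_ ?_
  · intro v hv
    rw [lay, Finset.mem_filter, mem_cellM] at hv
    rw [Finset.mem_filter, Finset.mem_range]
    exact ⟨iv_lt v, hv.2⟩
  · intro v _ w _ h
    exact iv_inj v w h
  · intro k hk
    rw [Finset.mem_filter, Finset.mem_range] at hk
    obtain ⟨v, hv⟩ := iv_surj k hk.1
    refine ⟨v, ?_, hv⟩
    rw [lay, Finset.mem_filter, mem_cellM]
    refine ⟨Finset.mem_univ _, ?_⟩
    unfold ix
    rw [hv]
    exact hk.2

theorem cell_card {l m : ℕ} (M : ℕ) : (cellM l m M).card = ∑ j : Fin m, pc M (j * 2 ^ l) (2 ^ l) := by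
  have h1 : ∀ j : Fin m, pc M (j * 2 ^ l) (2 ^ l) = ((cellM l m M).filter fun p => p.2 = j).card := by
    intro j
    rw [← lay_card]
    refine Finset.card_bij (fun v _ => (v, j)) ?_ ?_ ?_
    · intro v hv
      rw [lay, Finset.mem_filter] at hv
      rw [Finset.mem_filter]
      exact ⟨hv.2, rfl⟩
    · intro v _ w _ h
      exact congrArg Prod.fst h
    · intro p hp
      rw [Finset.mem_filter] at hp
      refine ⟨p.1, ?_, ?_⟩
      · rw [lay, Finset.mem_filter, ← hp.2]
        exact ⟨Finset.mem_univ _, hp.1⟩
      · rw [← hp.2]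
  simp only [h1]
  exact Finset.card_eq_sum_card_fiberwise fun _ _ => Finset.mem_univ _

/-- The linear function of a cell. -/
noncomputable def ell (l m : ℕ) (L M : List ℕ) (dl : ℕ) : (Fin l → ℝ) × (Fin m → ℝ) →ₗ[ℝ] ℝ where
  toFun z := (∑ i : Fin l, (L.getD i 0 : ℝ) * z.1 i + ∑ j : Fin m, (M.getD j 0 : ℝ) * z.2 j) / dl
  map_add' y z := by
    simp only [Prod.fst_add, Prod.snd_add, Pi.add_apply, mul_add, Finset.sum_add_distrib]
    ring
  map_smul' c z := by
    simp only [Prod.smul_fst, Prod.smul_snd, Pi.smul_apply, smul_eq_mul, RingHom.id_apply]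
    rw [← mul_div_assoc, mul_add, Finset.mul_sum, Finset.mul_sum]
    congr 2
    · exact Finset.sum_congr rfl fun i _ => by ring
    · exact Finset.sum_congr rfl fun i _ => by ring

theorem ell_A {l m : ℕ} (L M : List ℕ) (dl : ℕ) (hM : M.length = m) (p : (Fin l → Bool) × Fin m) :
    ell l m L M dl (prA l m p) = ((tab (subs l L) M).getD (ix p) 0 : ℝ) / dl := by
  have h1 : (ix p) = (p.2 : ℕ) * (subs l L).length + iv p.1 := by
    rw [length_subs]
    rfl
  rw [h1, tab_get _ _ _ _ (by rw [hM]; exact p.2.2) (by rw [length_subs]; exact iv_lt _), subs_get]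
  change (∑ i : Fin l, (L.getD i 0 : ℝ) * vx p.1 i + ∑ j : Fin m, (M.getD j 0 : ℝ) * (Pi.single p.2 (1 : ℝ) : Fin m → ℝ) j) / dl = _
  congr 1
  push_cast
  rw [add_comm]
  congr 1
  · rw [Finset.sum_eq_single p.2]
    · simp
    · intro j _ hj
      simp [hj]
    · intro h
      exact absurd (Finset.mem_univ _) h
  · refine Finset.sum_congr rfl fun i _ => ?_
    unfold vx
    split_ifs <;> simp

end Pool.Agent.Helper80.CT
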