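import Pool.Agent.Helper80.CT.Defs

/-!
# Block CT-CNT: counting multisets

PROOF.  The multisets with elements in `S` and at most `r` elements correspond to the multisets with exactly `r` elements in
`Option S` (add copies of `none`), i.e. to `Sym (Option S) r`: `F` is the image of `Finset.univ : Finset (Sym (Option S) r)` under
`x ↦ (x : Multiset (Option S)).filterMap (Option.map Subtype.val)`, and `F.card ≤ card (Sym (Option S) r) =
multichoose (S.card + 1) r = (S.card + r).choose r` (`Sym.card_sym_eq_multichoose`, `Nat.multichoose_eq`, `Fintype.card_option`).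
-/

set_option autoImplicit false

namespace Pool.Agent.Helper80.CT

open Finset

theorem exists_msets {P : Type} [DecidableEq P] (S : Finset P) (r : ℕ) :
    ∃ F : Finset (Multiset P), (∀ M : Multiset P, (∀ x ∈ M, x ∈ S) → M.card ≤ r → M ∈ F) ∧
      F.card ≤ (S.card + r).choose r := by
  classical
  refine ⟨(Finset.univ : Finset (Sym (Option S) r)).image fun x : Sym (Option S) r =>
    Multiset.filterMap (Option.map Subtype.val) x.1, fun M hM hr => ?_, ?_⟩
  · rw [Finset.mem_image]
    set N : Multiset (Option S) := M.attach.map (fun y => some (⟨y.1, hM y.1 y.2⟩ : S)) +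
      Multiset.replicate (r - M.card) none with hN
    have hc : Multiset.card N = r := by
      rw [hN, Multiset.card_add, Multiset.card_map, Multiset.card_attach, Multiset.card_replicate]
      omega
    refine ⟨Sym.mk N hc, Finset.mem_univ _, ?_⟩
    show N.filterMap (Option.map Subtype.val) = M
    have h1 : (Multiset.replicate (r - M.card) (none : Option S)).filterMap
        (Option.map Subtype.val) = 0 := by
      rw [Multiset.eq_zero_iff_forall_notMem]
      intro a ha
      obtain ⟨b, hb, hb'⟩ := (Multiset.mem_filterMap _ _).1 ha
      rw [Multiset.eq_of_mem_replicate hb] at hb'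
      simp at hb'
    have h2 : (M.attach.map (fun y => some (⟨y.1, hM y.1 y.2⟩ : S))).filterMap
        (Option.map Subtype.val) = M := by
      rw [Multiset.filterMap_map]
      have h3 : (Option.map Subtype.val ∘ fun y : {x // x ∈ M} => some (⟨y.1, hM y.1 y.2⟩ : S)) =
          some ∘ fun y : {x // x ∈ M} => y.1 := by
        funext y
        rfl
      rw [h3, Multiset.filterMap_eq_map]
      exact Multiset.attach_map_val M
    rw [hN, Multiset.filterMap_add, h1, h2, add_zero]
  · refine Finset.card_image_le.trans (le_of_eq ?_)
    rw [Finset.card_univ, Sym.card_sym_eq_multichoose, Fintype.card_option, Fintype.card_coe,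
      Nat.multichoose_eq]
    congr 1
    omega

end Pool.Agent.Helper80.CT
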