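import Pool.Agent.Helper80.CT.Defs

/-!
# Block CT-COUP: existence of couplings with support in a staircase

`P` (columns) and `Q` (rows) are finite linear orders, `a : Q → ℝ`, `b : P → ℝ` nonnegative with the same sum.

PROOFS.
* `stair_chain`: `rk R q < rk R q' ≤ #{b ≤ p'}` and `#{b < p} ≤ rk R q`, so `#{b < p} < #{b ≤ p'}` and some `b ∈ M` with
  `b ≤ p'`, not `b < p`.
* `coup_ex`.  `T q = ∑_{x ≤ q} a x`, `T' q = ∑_{x < q} a x` (sums over `univ.filter`), `L p`, `L' p` in the same way for `b`.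
  `s q p = min (L p) (T q) - min (L p) (T' q) - min (L' p) (T q) + min (L' p) (T' q)` (length of the intersection of the
  intervals `[T' q, T q]` and `[L' p, L p]`); it is `≥ 0`, and `s q p ≠ 0` implies `T' q < L p`, `L' p < T q`, `a q ≠ 0`, `b p ≠ 0`.
  Marginals: telescoping lemma `∑ p, (F (L p) - F (L' p)) = F (∑ b) - F 0` for every `F : ℝ → ℝ` (for a finset of columns which is
  built up with `Finset.induction_on_max`, or by induction on the number of elements: remove the largest one), applied to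
  `F u = min u (T q) - min u (T' q)` (`0 ≤ T' q ≤ T q ≤ ∑ a = ∑ b`), and the same for rows.
  Thresholds: for a row `q ∈ R` which is not the largest element of `R` let `θ q` be the smallest `p ∈ S` with `T q ≤ L p`, if there is one;
  `M` is the multiset of these `θ q` (at most `R.card - 1` elements, all in `S`).
  `s q p ≠ 0` implies `InStair R M q p`: (i) `q ∈ R` because `a q ≠ 0`; (ii) if `θ q' < p` then `T q' ≤ L (θ q') ≤ L' p < T q`, so `q' < q`
  (`T` is monotone): `#{b ∈ M : b < p} ≤ rk R q`; (iii) for `q' ∈ R`, `q' < q`: `q'` is not the largest one, `T q' ≤ T' q < L p` and `p ∈ S`, so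
  `θ q'` exists and is `≤ p`: `rk R q ≤ #{b ∈ M : b ≤ p}`.
-/

set_option autoImplicit false

namespace Pool.Agent.Helper80.CT

open Finset

variable {P Q : Type} [LinearOrder P] [LinearOrder Q]

theorem stair_chain {R : Finset Q} {M : Multiset P} {q q' : Q} {p p' : P} (h : InStair R M q p)
    (h' : InStair R M q' p') (hq : q < q') : p ≤ p' := by
  by_contra hp
  rw [not_le] at hp
  have h1 : rk R q < rk R q' := by
    unfold rk
    refine Finset.card_lt_card ?_
    rw [Finset.ssubset_iff_of_subset]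
    · exact ⟨q, Finset.mem_filter.2 ⟨h.1, hq⟩, fun h0 => lt_irrefl q (Finset.mem_filter.1 h0).2⟩
    · intro x hx
      rw [Finset.mem_filter] at hx ⊢
      exact ⟨hx.1, hx.2.trans hq⟩
  have h2 : (M.filter fun b => b ≤ p').card ≤ (M.filter fun b => b < p).card :=
    Multiset.card_le_card (Multiset.monotone_filter_right M (fun b hb => lt_of_le_of_lt hb hp))
  have h3 := h.2.1
  have h4 := h'.2.2
  omega

/-- Sum up to `p`. -/
private def up31 {P : Type} [LinearOrder P] (S : Finset P) (b : P → ℝ) (p : P) : ℝ :=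
  ∑ x ∈ S.filter (fun x => x ≤ p), b x

/-- Sum below `p`. -/
private def lo31 {P : Type} [LinearOrder P] (S : Finset P) (b : P → ℝ) (p : P) : ℝ :=
  ∑ x ∈ S.filter (fun x => x < p), b x

private lemma tele31 {P : Type} [LinearOrder P] (b : P → ℝ) (F : ℝ → ℝ) (S : Finset P) :
    ∑ p ∈ S, (F (up31 S b p) - F (lo31 S b p)) = F (∑ p ∈ S, b p) - F 0 := by
  induction S using Finset.induction_on_max with
  | empty => simp
  | insert m s hm ih =>
    have hms : m ∉ s := fun h => lt_irrefl m (hm m h)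
    rw [Finset.sum_insert hms]
    have e1 : up31 (insert m s) b m = ∑ p ∈ insert m s, b p := by
      unfold up31
      congr 1
      refine Finset.filter_true_of_mem ?_
      intro x hx
      rcases Finset.mem_insert.1 hx with rfl | hx
      · exact le_rfl
      · exact (hm x hx).le
    have e2 : lo31 (insert m s) b m = ∑ p ∈ s, b p := by
      unfold lo31
      congr 1
      rw [Finset.filter_insert, if_neg (lt_irrefl m)]
      exact Finset.filter_true_of_mem hm
    have e3 : ∑ p ∈ s, (F (up31 (insert m s) b p) - F (lo31 (insert m s) b p)) =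
        ∑ p ∈ s, (F (up31 s b p) - F (lo31 s b p)) := by
      refine Finset.sum_congr rfl fun p hp => ?_
      have h1 := hm p hp
      unfold up31 lo31
      rw [Finset.filter_insert, if_neg (not_le.2 h1), Finset.filter_insert, if_neg (not_lt.2 h1.le)]
    rw [e1, e2, e3, ih]
    ring

section

variable {P : Type} [LinearOrder P] {S : Finset P} {b : P → ℝ}

private lemma up_eq31 {p : P} (hp : p ∈ S) : up31 S b p = lo31 S b p + b p := by
  unfold up31 lo31
  have h : S.filter (fun x => x ≤ p) = insert p (S.filter (fun x => x < p)) := by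
    ext x
    rw [Finset.mem_insert, Finset.mem_filter, Finset.mem_filter]
    constructor
    · rintro ⟨h1, h2⟩
      rcases h2.eq_or_lt with rfl | h2
      · exact Or.inl rfl
      · exact Or.inr ⟨h1, h2⟩
    · rintro (rfl | ⟨h1, h2⟩)
      · exact ⟨hp, le_rfl⟩
      · exact ⟨h1, h2.le⟩
  rw [h, Finset.sum_insert (by simp), add_comm]

private lemma lo_nonneg31 (hb : ∀ p, 0 ≤ b p) (p : P) : 0 ≤ lo31 S b p :=
  Finset.sum_nonneg fun x _ => hb x

private lemma lo_le_up31 (hb : ∀ p, 0 ≤ b p) (p : P) : lo31 S b p ≤ up31 S b p := by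
  unfold up31 lo31
  refine Finset.sum_le_sum_of_subset_of_nonneg ?_ fun x _ _ => hb x
  intro x hx
  rw [Finset.mem_filter] at hx ⊢
  exact ⟨hx.1, hx.2.le⟩

private lemma up_le_lo31 (hb : ∀ p, 0 ≤ b p) {p q : P} (h : p < q) : up31 S b p ≤ lo31 S b q := by
  unfold up31 lo31
  refine Finset.sum_le_sum_of_subset_of_nonneg ?_ fun x _ _ => hb x
  intro x hx
  rw [Finset.mem_filter] at hx ⊢
  exact ⟨hx.1, lt_of_le_of_lt hx.2 h⟩

private lemma up_le_up31 (hb : ∀ p, 0 ≤ b p) {p q : P} (h : p ≤ q) : up31 S b p ≤ up31 S b q := by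
  unfold up31
  refine Finset.sum_le_sum_of_subset_of_nonneg ?_ fun x _ _ => hb x
  intro x hx
  rw [Finset.mem_filter] at hx ⊢
  exact ⟨hx.1, hx.2.trans h⟩

private lemma up_le_sum31 (hb : ∀ p, 0 ≤ b p) (p : P) : up31 S b p ≤ ∑ x ∈ S, b x := by
  unfold up31
  exact Finset.sum_le_sum_of_subset_of_nonneg (Finset.filter_subset _ _) fun x _ _ => hb x

end

/-- Length of the intersection of two intervals. -/
private noncomputable def ov31 (l' l t' t : ℝ) : ℝ := min l t - min l t' - min l' t + min l' t'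

private lemma ov_nonneg31 {l' l t' t : ℝ} (hl : l' ≤ l) (ht : t' ≤ t) : 0 ≤ ov31 l' l t' t := by
  unfold ov31
  rcases min_cases l t with ⟨h1, h1'⟩ | ⟨h1, h1'⟩ <;> rcases min_cases l t' with ⟨h2, h2'⟩ | ⟨h2, h2'⟩ <;>
    rcases min_cases l' t with ⟨h3, h3'⟩ | ⟨h3, h3'⟩ <;> rcases min_cases l' t' with ⟨h4, h4'⟩ | ⟨h4, h4'⟩ <;>
    rw [h1, h2, h3, h4] <;> linarith

private lemma ov_supp31 {l' l t' t : ℝ} (hl : l' ≤ l) (ht : t' ≤ t) (h : ov31 l' l t' t ≠ 0) :
    t' < l ∧ l' < t ∧ t' ≠ t ∧ l' ≠ l := by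
  refine ⟨?_, ?_, ?_, ?_⟩
  · by_contra h0
    rw [not_lt] at h0
    apply h
    unfold ov31
    rw [min_eq_left (h0.trans ht), min_eq_left h0, min_eq_left (hl.trans (h0.trans ht)),
      min_eq_left (hl.trans h0)]
    ring
  · by_contra h0
    rw [not_lt] at h0
    apply h
    unfold ov31
    rw [min_eq_right (h0.trans hl), min_eq_right (ht.trans (h0.trans hl)), min_eq_right h0,
      min_eq_right (ht.trans h0)]
    ring
  · rintro rfl
    apply h
    unfold ov31
    ring
  · rintro rfl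
    apply h
    unfold ov31
    ring

theorem coup_ex [Fintype P] [Fintype Q] (R : Finset Q) (S : Finset P) (a : Q → ℝ) (b : P → ℝ) (ha : ∀ q, 0 ≤ a q)
    (hb : ∀ p, 0 ≤ b p) (haR : ∀ q, q ∉ R → a q = 0) (hbS : ∀ p, p ∉ S → b p = 0)
    (hab : ∑ q, a q = ∑ p, b p) :
    ∃ (M : Multiset P) (s : Q → P → ℝ), (∀ x ∈ M, x ∈ S) ∧ M.card ≤ R.card - 1 ∧ (∀ q p, 0 ≤ s q p) ∧
      (∀ q, ∑ p, s q p = a q) ∧ (∀ p, ∑ q, s q p = b p) ∧ ∀ q p, s q p ≠ 0 → InStair R M q p := by
  classical
  rcases isEmpty_or_nonempty P with hP | hP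
  · refine ⟨0, fun _ _ => 0, by simp, by simp, fun _ _ => le_rfl, ?_, fun p => (hP.false p).elim,
      fun _ _ h => absurd rfl h⟩
    intro q
    have h0 : ∑ q, a q = 0 := by rw [hab]; exact Finset.sum_of_isEmpty _
    have h1 := (Finset.sum_eq_zero_iff_of_nonneg (fun q _ => ha q)).1 h0 q (Finset.mem_univ q)
    rw [h1]
    exact Finset.sum_of_isEmpty _
  set T : Q → ℝ := up31 Finset.univ a with hT
  set T' : Q → ℝ := lo31 Finset.univ a with hT'
  set L : P → ℝ := up31 Finset.univ b with hL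
  set L' : P → ℝ := lo31 Finset.univ b with hL'
  have hTe : ∀ q, T q = T' q + a q := fun q => up_eq31 (Finset.mem_univ q)
  have hLe : ∀ p, L p = L' p + b p := fun p => up_eq31 (Finset.mem_univ p)
  have hTT : ∀ q, T' q ≤ T q := lo_le_up31 ha
  have hLL : ∀ p, L' p ≤ L p := lo_le_up31 hb
  have hT0 : ∀ q, 0 ≤ T' q := lo_nonneg31 ha
  have hL0 : ∀ p, 0 ≤ L' p := lo_nonneg31 hb
  have hT1 : ∀ q, T q ≤ ∑ q, a q := up_le_sum31 ha
  have hL1 : ∀ p, L p ≤ ∑ p, b p := up_le_sum31 hb
  -- thresholds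
  set R' : Finset Q := R.filter (fun q => (∃ q' ∈ R, q < q') ∧ ∃ p ∈ S, T q ≤ L p) with hR'
  have hex : ∀ q, q ∈ R' → ∃ p, p ∈ S ∧ T q ≤ L p ∧ ∀ p' ∈ S, T q ≤ L p' → p ≤ p' := by
    intro q hq
    obtain ⟨_, _, p0, hp0, hp0'⟩ := Finset.mem_filter.1 hq
    have hne : (S.filter (fun p => T q ≤ L p)).Nonempty :=
      ⟨p0, Finset.mem_filter.2 ⟨hp0, hp0'⟩⟩
    have hm := Finset.mem_filter.1 (Finset.min'_mem _ hne)
    refine ⟨(S.filter (fun p => T q ≤ L p)).min' hne, hm.1, hm.2, ?_⟩
    intro p' hp' hp''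
    exact Finset.min'_le _ _ (Finset.mem_filter.2 ⟨hp', hp''⟩)
  choose! θ hθ1 hθ2 hθ3 using hex
  have hfc : ∀ (r : P → Prop) [DecidablePred r], ((R'.val.map θ).filter r).card =
      (R'.filter (fun q => r (θ q))).card := by
    intro r _
    rw [Multiset.filter_map, Multiset.card_map]
    rfl
  refine ⟨R'.val.map θ, fun q p => ov31 (L' p) (L p) (T' q) (T q), ?_, ?_, ?_, ?_, ?_, ?_⟩
  · intro x hx
    obtain ⟨q, hq, rfl⟩ := Multiset.mem_map.1 hx
    exact hθ1 q hq
  · rw [Multiset.card_map]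
    change R'.card ≤ R.card - 1
    rcases R.eq_empty_or_nonempty with h0 | h0
    · rw [hR', h0]; simp
    · rw [← Finset.card_erase_of_mem (R.max'_mem h0)]
      refine Finset.card_le_card ?_
      intro q hq
      obtain ⟨hq1, ⟨q', hq', hlt⟩, _⟩ := Finset.mem_filter.1 hq
      rw [Finset.mem_erase]
      refine ⟨?_, hq1⟩
      intro h
      have := R.le_max' q' hq'
      rw [← h] at this
      exact absurd hlt (not_lt.2 this)
  · intro q p
    exact ov_nonneg31 (hLL p) (hTT q)
  · intro q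
    have h := tele31 b (fun u => min u (T q) - min u (T' q)) Finset.univ
    have h2 : ∑ p, ov31 (L' p) (L p) (T' q) (T q) =
        ∑ p, ((min (L p) (T q) - min (L p) (T' q)) - (min (L' p) (T q) - min (L' p) (T' q))) := by
      refine Finset.sum_congr rfl fun p _ => ?_
      unfold ov31; ring
    rw [h2]
    refine h.trans ?_
    rw [← hab, min_eq_right (hT1 q), min_eq_right ((hTT q).trans (hT1 q)),
      min_eq_left ((hT0 q).trans (hTT q)), min_eq_left (hT0 q), hTe q]
    ring
  · intro p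
    have h := tele31 a (fun u => min (L p) u - min (L' p) u) Finset.univ
    have h2 : ∑ q, ov31 (L' p) (L p) (T' q) (T q) =
        ∑ q, ((min (L p) (T q) - min (L' p) (T q)) - (min (L p) (T' q) - min (L' p) (T' q))) := by
      refine Finset.sum_congr rfl fun p _ => ?_
      unfold ov31; ring
    rw [h2]
    refine h.trans ?_
    rw [hab, min_eq_left (hL1 p), min_eq_left ((hLL p).trans (hL1 p)),
      min_eq_right ((hL0 p).trans (hLL p)), min_eq_right (hL0 p), hLe p]
    ring
  · intro q p h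
    obtain ⟨h1, h2, h3, h4⟩ := ov_supp31 (hLL p) (hTT q) h
    have hq : q ∈ R := by
      by_contra h0
      apply h3
      rw [hTe q, haR q h0, add_zero]
    have hp : p ∈ S := by
      by_contra h0
      apply h4
      rw [hLe p, hbS p h0, add_zero]
    refine ⟨hq, ?_, ?_⟩
    · rw [hfc]
      unfold rk
      refine Finset.card_le_card ?_
      intro q' hq'
      obtain ⟨hq1, hq2⟩ := Finset.mem_filter.1 hq'
      refine Finset.mem_filter.2 ⟨(Finset.mem_filter.1 hq1).1, ?_⟩
      by_contra h0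
      rw [not_lt] at h0
      have k1 : T q' ≤ L (θ q') := hθ2 q' hq1
      have k2 : L (θ q') ≤ L' p := up_le_lo31 hb hq2
      have k3 : T q ≤ T q' := up_le_up31 ha h0
      linarith
    · rw [hfc]
      unfold rk
      refine Finset.card_le_card ?_
      intro q' hq'
      obtain ⟨hq1, hq2⟩ := Finset.mem_filter.1 hq'
      have k1 : T q' ≤ T' q := up_le_lo31 ha hq2
      have k2 : T q' ≤ L p := by linarith
      have hm : q' ∈ R' := Finset.mem_filter.2 ⟨hq1, ⟨q, hq, hq2⟩, p, hp, k2⟩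
      exact Finset.mem_filter.2 ⟨hm, hθ3 q' hm p hp k2⟩

end Pool.Agent.Helper80.CT
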