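import Pool.Agent.Helper80.CT.Defs

/-!
# Block CT-UNI: uniqueness of monotone couplings

PROOF.  For lower sets `X ⊆ Q`, `Y ⊆ P` (the only ones needed are `{x ≤ q}`, `{x < q}`, `{y ≤ p}`, `{y < p}`) and `s ≥ 0` with `ChainSupp s`:
`∑_{X × Y} s = min (∑_{X × P} s) (∑_{Q × Y} s)`.  Indeed if `s q p' ≠ 0`, `s q' p ≠ 0` with `q ∈ X`, `p' ∉ Y`, `q' ∉ X`, `p ∈ Y` then `q < q'`,
`p < p'`, contradiction to `ChainSupp`; so `∑_{X × Yᶜ} s = 0` or `∑_{Xᶜ × Y} s = 0`, and in the first case `∑_{X × Y} s = ∑_{X × P} s ≤ ∑_{Q × Y} s`, in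
the second case `∑_{X × Y} s = ∑_{Q × Y} s ≤ ∑_{X × P} s`.  The right side depends only on the marginals, so it is the same for `s` and `s'`, and
`s q p` is the second difference of these sums for `X = {x ≤ q}, {x < q}`, `Y = {y ≤ p}, {y < p}`.
-/

set_option autoImplicit false

namespace Pool.Agent.Helper80.CT

open Finset

variable {P Q : Type} [LinearOrder P] [LinearOrder Q]

private lemma box_min [Fintype P] [Fintype Q] (s : Q → P → ℝ) (hs : ∀ q p, 0 ≤ s q p) (hc : ChainSupp s)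
    (X : Finset Q) (Y : Finset P) (hX : ∀ q q', q ∈ X → q' ∉ X → q < q') (hY : ∀ p p', p ∈ Y → p' ∉ Y → p < p') :
    ∑ q ∈ X, ∑ p ∈ Y, s q p = min (∑ q ∈ X, ∑ p, s q p) (∑ p ∈ Y, ∑ q, s q p) := by
  classical
  have e1 : ∑ q ∈ X, ∑ p, s q p = ∑ q ∈ X, ∑ p ∈ Y, s q p + ∑ q ∈ X, ∑ p ∈ Yᶜ, s q p := by
    rw [← sum_add_distrib]
    exact sum_congr rfl fun q _ => (sum_add_sum_compl Y _).symm
  have e2 : ∑ p ∈ Y, ∑ q, s q p = ∑ q ∈ X, ∑ p ∈ Y, s q p + ∑ q ∈ Xᶜ, ∑ p ∈ Y, s q p := by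
    rw [sum_add_sum_compl X (fun q => ∑ p ∈ Y, s q p), sum_comm]
  have n1 : 0 ≤ ∑ q ∈ X, ∑ p ∈ Yᶜ, s q p := sum_nonneg fun q _ => sum_nonneg fun p _ => hs q p
  have n2 : 0 ≤ ∑ q ∈ Xᶜ, ∑ p ∈ Y, s q p := sum_nonneg fun q _ => sum_nonneg fun p _ => hs q p
  have h0 : ∑ q ∈ X, ∑ p ∈ Yᶜ, s q p = 0 ∨ ∑ q ∈ Xᶜ, ∑ p ∈ Y, s q p = 0 := by
    by_contra hcon
    push Not at hcon
    obtain ⟨ha, hb⟩ := hcon
    obtain ⟨q, hq, hq'⟩ := exists_ne_zero_of_sum_ne_zero ha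
    obtain ⟨p', hp', hqp'⟩ := exists_ne_zero_of_sum_ne_zero hq'
    obtain ⟨q', hq1, hq1'⟩ := exists_ne_zero_of_sum_ne_zero hb
    obtain ⟨p, hp, hq'p⟩ := exists_ne_zero_of_sum_ne_zero hq1'
    rw [mem_compl] at hp' hq1
    have := hc q q' p' p hqp' hq'p (hX q q' hq hq1)
    exact absurd (hY p p' hp hp') (not_lt.mpr this)
  rw [e1, e2]
  rcases h0 with h0 | h0
  · rw [h0, add_zero, min_eq_left (by linarith)]
  · rw [h0, add_zero, min_eq_right (by linarith)]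

private lemma sec_diff [Fintype P] [Fintype Q] (s : Q → P → ℝ) (q : Q) (p : P) :
    s q p = (∑ x ∈ univ.filter (· ≤ q), ∑ y ∈ univ.filter (· ≤ p), s x y)
      - (∑ x ∈ univ.filter (· < q), ∑ y ∈ univ.filter (· ≤ p), s x y)
      - ((∑ x ∈ univ.filter (· ≤ q), ∑ y ∈ univ.filter (· < p), s x y)
      - (∑ x ∈ univ.filter (· < q), ∑ y ∈ univ.filter (· < p), s x y)) := by
  classical
  have hQ : (univ.filter (· ≤ q) : Finset Q) = insert q (univ.filter (· < q)) := by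
    ext x
    simp only [mem_filter, mem_univ, true_and, mem_insert]
    exact le_iff_eq_or_lt
  have hP : (univ.filter (· ≤ p) : Finset P) = insert p (univ.filter (· < p)) := by
    ext x
    simp only [mem_filter, mem_univ, true_and, mem_insert]
    exact le_iff_eq_or_lt
  have hq : q ∉ (univ.filter (· < q) : Finset Q) := by simp
  have hp : p ∉ (univ.filter (· < p) : Finset P) := by simp
  rw [hQ, sum_insert hq, sum_insert hq, hP, sum_insert hp]
  ring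

theorem coup_un [Fintype P] [Fintype Q] (s s' : Q → P → ℝ) (hs : ∀ q p, 0 ≤ s q p) (hs' : ∀ q p, 0 ≤ s' q p)
    (hc : ChainSupp s) (hc' : ChainSupp s') (h1 : ∀ q, ∑ p, s q p = ∑ p, s' q p)
    (h2 : ∀ p, ∑ q, s q p = ∑ q, s' q p) : s = s' := by
  have key : ∀ (X : Finset Q) (Y : Finset P), (∀ q q', q ∈ X → q' ∉ X → q < q') →
      (∀ p p', p ∈ Y → p' ∉ Y → p < p') → ∑ q ∈ X, ∑ p ∈ Y, s q p = ∑ q ∈ X, ∑ p ∈ Y, s' q p := by
    intro X Y hX hY
    rw [box_min s hs hc X Y hX hY, box_min s' hs' hc' X Y hX hY]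
    simp only [h1, h2]
  have l1 : ∀ q : Q, ∀ a b, a ∈ (univ.filter (· ≤ q) : Finset Q) → b ∉ (univ.filter (· ≤ q) : Finset Q) → a < b := by
    intro q a b ha hb
    simp only [mem_filter, mem_univ, true_and, not_le] at ha hb
    exact lt_of_le_of_lt ha hb
  have l2 : ∀ q : Q, ∀ a b, a ∈ (univ.filter (· < q) : Finset Q) → b ∉ (univ.filter (· < q) : Finset Q) → a < b := by
    intro q a b ha hb
    simp only [mem_filter, mem_univ, true_and, not_lt] at ha hb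
    exact lt_of_lt_of_le ha hb
  have m1 : ∀ q : P, ∀ a b, a ∈ (univ.filter (· ≤ q) : Finset P) → b ∉ (univ.filter (· ≤ q) : Finset P) → a < b := by
    intro q a b ha hb
    simp only [mem_filter, mem_univ, true_and, not_le] at ha hb
    exact lt_of_le_of_lt ha hb
  have m2 : ∀ q : P, ∀ a b, a ∈ (univ.filter (· < q) : Finset P) → b ∉ (univ.filter (· < q) : Finset P) → a < b := by
    intro q a b ha hb
    simp only [mem_filter, mem_univ, true_and, not_lt] at ha hb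
    exact lt_of_lt_of_le ha hb
  funext q p
  rw [sec_diff s q p, sec_diff s' q p, key _ _ (l1 q) (m1 p), key _ _ (l2 q) (m1 p), key _ _ (l1 q) (m2 p),
    key _ _ (l2 q) (m2 p)]

end Pool.Agent.Helper80.CT
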