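import Mathlib

/-!
# Project CT (MP_980383_co): efficient triangulations of the cube. Definitions

README: /team-store/h80_CT_README.md.

`Tri A K T`: the cells of `T` (sets of vertices `p`, at the vectors `A p`) triangulate `K`: every point of `K` is a
nonnegative combination of the vertices of some cell, and nonnegative combinations with support in a cell are unique
(over all cells at the same time).
-/

set_option autoImplicit false

namespace Pool.Agent.Helper80.CT

open Finset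

/-- A triangulation. -/
structure Tri {P E : Type} [Fintype P] [AddCommGroup E] [Module ℝ E] (A : P → E) (K : Set E)
    (T : Finset (Finset P)) : Prop where
  ex : ∀ z ∈ K, ∃ S ∈ T, ∃ t : P → ℝ, (∀ p, 0 ≤ t p) ∧ (∀ p, p ∉ S → t p = 0) ∧ ∑ p, t p • A p = z
  un : ∀ S ∈ T, ∀ S' ∈ T, ∀ t t' : P → ℝ, (∀ p, 0 ≤ t p) → (∀ p, p ∉ S → t p = 0) →
    (∀ p, 0 ≤ t' p) → (∀ p, p ∉ S' → t' p = 0) → ∑ p, t p • A p = ∑ p, t' p • A p → t = t'

/-- The vertex `p` of the cube. -/
def vx {κ : Type} (p : κ → Bool) (i : κ) : ℝ := if p i then 1 else 0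

/-- The vertices of the cube in homogeneous coordinates. -/
def cubeA (κ : Type) (p : κ → Bool) : ℝ × (κ → ℝ) := (1, vx p)

/-- The cube in homogeneous coordinates. -/
def cubeK (κ : Type) : Set (ℝ × (κ → ℝ)) := {z | z.1 = 1 ∧ ∀ i, 0 ≤ z.2 i ∧ z.2 i ≤ 1}

/-- The vertices of the product of a cube and a simplex. -/
def prA (l m : ℕ) (x : (Fin l → Bool) × Fin m) : (Fin l → ℝ) × (Fin m → ℝ) :=
  (vx x.1, Pi.single x.2 1)

/-- The product of a cube and a simplex. -/
def prK (l m : ℕ) : Set ((Fin l → ℝ) × (Fin m → ℝ)) :=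
  {z | (∀ i, 0 ≤ z.1 i ∧ z.1 i ≤ 1) ∧ (∀ j, 0 ≤ z.2 j) ∧ ∑ j, z.2 j = 1}

/-- The vertices of the product of two cubes. -/
def ccA (κ : Type) (l : ℕ) (x : (κ → Bool) × (Fin l → Bool)) : ℝ × (κ → ℝ) × (Fin l → ℝ) :=
  (1, vx x.1, vx x.2)

/-- The product of two cubes. -/
def ccK (κ : Type) (l : ℕ) : Set (ℝ × (κ → ℝ) × (Fin l → ℝ)) :=
  {z | z.1 = 1 ∧ (∀ i, 0 ≤ z.2.1 i ∧ z.2.1 i ≤ 1) ∧ ∀ i, 0 ≤ z.2.2 i ∧ z.2.2 i ≤ 1}

/-- The vertices of the cell `τ` over the vertex `j` of the simplex. -/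
def lay {l m : ℕ} (τ : Finset ((Fin l → Bool) × Fin m)) (j : Fin m) : Finset (Fin l → Bool) :=
  Finset.univ.filter fun v => (v, j) ∈ τ

/-- The number of vertices over `j` minus one. -/
def rr {l m : ℕ} (τ : Finset ((Fin l → Bool) × Fin m)) (j : Fin m) : ℕ := (lay τ j).card - 1

/-- The weight of a cell. -/
noncomputable def wt {l m : ℕ} (τ : Finset ((Fin l → Bool) × Fin m)) : ℝ :=
  ∏ j, 1 / ((rr τ j).factorial : ℝ)

/-! ### Staircases -/

section stairs

variable {P Q : Type} [LinearOrder P] [LinearOrder Q]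

/-- The rank of `q` in the finite set `R`. -/
def rk (R : Finset Q) (q : Q) : ℕ := (R.filter fun x => x < q).card

/-- The staircase with the rows `R` and the thresholds `M`: the row `q` of rank `a` meets the columns between the
`a`-th and the `(a + 1)`-st element of `M`. -/
def InStair (R : Finset Q) (M : Multiset P) (q : Q) (p : P) : Prop :=
  q ∈ R ∧ (M.filter fun b => b < p).card ≤ rk R q ∧ rk R q ≤ (M.filter fun b => b ≤ p).card

/-- The support of `s` is a chain. -/
def ChainSupp (s : Q → P → ℝ) : Prop :=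
  ∀ q q' p p', s q p ≠ 0 → s q' p' ≠ 0 → q < q' → p ≤ p'

end stairs

end Pool.Agent.Helper80.CT
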