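import Mathlib

/-!
# Block CT-REC: analysis of the recursion (pure analysis)

PROOF.  `ρ = w / m^l < c^l`.  For large `n`: `w (((n+1)/m)^l + 2 l² (n+1+l)^(l-1)) ≤ c^l (n+1)^l ≤ c^l (n+l)!/n!`
(`(n+1)^l ≤ (n+l)!/n!`: `Nat.ascFactorial`, `Nat.pow_succ_le_ascFactorial` or `Nat.factorial_mul_pow_le_factorial`; the quotient of the left side by `(n+1)^l`
tends to `ρ`; note `n + 1 + l ≤ (l + 1) (n + 1)`, so the second term is at most `2 l² (l+1)^(l-1) (n+1)^(l-1)` and it is enough that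
`w 2 l² (l+1)^(l-1) ≤ (c^l - ρ) (n+1)`).  So for `n ≥ n₁`: `f (n+l) / (c^(n+l) (n+l)!) ≤ f n / (c^n n!)`, and `f n ≤ B c^n n!` for all `n` with
`B` the maximum (or the sum) of `f n / (c^n n!)` over `n < n₁ + l`.
-/

set_option autoImplicit false

namespace Pool.Agent.Helper80.CT

theorem grow_real {l m : ℕ} (hl : 1 ≤ l) (hm : 1 ≤ m) {w c : ℝ} (hw : 0 ≤ w) (hc : 0 < c)
    (hwc : w / (m : ℝ) ^ l < c ^ l) (f : ℕ → ℝ) (hf : ∀ n, 0 ≤ f n)
    (hrec : ∀ n : ℕ, f (n + l) ≤ f n * w *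
      ((((n + 1 : ℕ) : ℝ) / m) ^ l + 2 * (l : ℝ) ^ 2 * (((n + 1 : ℕ) : ℝ) + l) ^ (l - 1))) :
    ∃ B : ℝ, ∀ n, f n ≤ B * c ^ n * n.factorial := by
  have hm0 : (0 : ℝ) < m := by exact_mod_cast hm
  have hδ0 : 0 < c ^ l - w / (m : ℝ) ^ l := by linarith
  obtain ⟨C, hC⟩ : ∃ C : ℝ, C = w * (2 * (l : ℝ) ^ 2 * ((l : ℝ) + 1) ^ (l - 1)) := ⟨_, rfl⟩
  obtain ⟨n₁, hn₁⟩ := exists_nat_ge (C / (c ^ l - w / (m : ℝ) ^ l))
  have step : ∀ n, n₁ ≤ n → f (n + l) * n.factorial ≤ f n * (c ^ l * (n + l).factorial) := by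
    intro n hn
    obtain ⟨X, hX⟩ : ∃ X : ℝ, X = ((n + 1 : ℕ) : ℝ) := ⟨_, rfl⟩
    have hX1 : 1 ≤ X := by
      rw [hX]
      exact_mod_cast (by omega : 1 ≤ n + 1)
    have hX0 : 0 < X := by linarith
    have h1 : w * ((X / m) ^ l + 2 * (l : ℝ) ^ 2 * (X + l) ^ (l - 1)) ≤ c ^ l * X ^ l := by
      have e1 : w * (X / m) ^ l = w / (m : ℝ) ^ l * X ^ l := by
        rw [div_pow]
        ring
      have e2 : w * (2 * (l : ℝ) ^ 2 * (X + l) ^ (l - 1)) ≤ C * X ^ (l - 1) := by
        have h2 : (X + l) ^ (l - 1) ≤ (((l : ℝ) + 1) * X) ^ (l - 1) := by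
          apply pow_le_pow_left₀ (by positivity)
          have : (0 : ℝ) ≤ l := Nat.cast_nonneg l
          nlinarith
        calc w * (2 * (l : ℝ) ^ 2 * (X + l) ^ (l - 1))
            ≤ w * (2 * (l : ℝ) ^ 2 * (((l : ℝ) + 1) * X) ^ (l - 1)) := by gcongr
          _ = C * X ^ (l - 1) := by
            rw [mul_pow, hC]
            ring
      have e3 : C * X ^ (l - 1) ≤ (c ^ l - w / (m : ℝ) ^ l) * X ^ l := by
        have h3 : X ^ l = X * X ^ (l - 1) := by
          rw [← pow_succ']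
          congr 1
          omega
        have h4 : C ≤ (c ^ l - w / (m : ℝ) ^ l) * X := by
          have h5 : C / (c ^ l - w / (m : ℝ) ^ l) ≤ X := by
            refine hn₁.trans ?_
            rw [hX]
            exact_mod_cast (by omega : n₁ ≤ n + 1)
          rwa [div_le_iff₀' hδ0] at h5
        rw [h3, ← mul_assoc]
        exact mul_le_mul_of_nonneg_right h4 (by positivity)
      have e4 : w * ((X / m) ^ l + 2 * (l : ℝ) ^ 2 * (X + l) ^ (l - 1)) =
          w * (X / m) ^ l + w * (2 * (l : ℝ) ^ 2 * (X + l) ^ (l - 1)) := by ring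
      rw [e4, e1]
      linarith
    have h2 : f (n + l) ≤ f n * (c ^ l * X ^ l) := by
      refine (hrec n).trans ?_
      rw [← hX, mul_assoc]
      exact mul_le_mul_of_nonneg_left h1 (hf n)
    have h3 : X ^ l * n.factorial ≤ (n + l).factorial := by
      rw [hX]
      have := Nat.factorial_mul_pow_le_factorial (m := n) (n := l)
      rw [mul_comm]
      exact_mod_cast this
    have hcl : 0 < c ^ l := pow_pos hc l
    calc f (n + l) * n.factorial ≤ f n * (c ^ l * X ^ l) * n.factorial :=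
          mul_le_mul_of_nonneg_right h2 (Nat.cast_nonneg _)
      _ = f n * c ^ l * (X ^ l * n.factorial) := by ring
      _ ≤ f n * c ^ l * (n + l).factorial :=
          mul_le_mul_of_nonneg_left h3 (mul_nonneg (hf n) hcl.le)
      _ = f n * (c ^ l * (n + l).factorial) := by ring
  refine ⟨∑ n ∈ Finset.range (n₁ + l), f n / (c ^ n * n.factorial), fun n => ?_⟩
  have hpos : ∀ n : ℕ, 0 < c ^ n * (n.factorial : ℝ) := fun n => by positivity
  induction n using Nat.strong_induction_on with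
  | _ n ih =>
    rw [mul_assoc, ← div_le_iff₀ (hpos n)]
    by_cases hn : n < n₁ + l
    · exact Finset.single_le_sum (f := fun n => f n / (c ^ n * (n.factorial : ℝ)))
        (fun i _ => div_nonneg (hf i) (hpos i).le) (Finset.mem_range.mpr hn)
    · obtain ⟨k, rfl⟩ : ∃ k, n = k + l := ⟨n - l, by omega⟩
      have hk := ih k (by omega)
      rw [mul_assoc, ← div_le_iff₀ (hpos k)] at hk
      refine le_trans ?_ hk
      rw [div_le_div_iff₀ (hpos _) (hpos _)]
      have h5 := step k (by omega)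
      have h6 : 0 < c ^ k := pow_pos hc k
      calc f (k + l) * (c ^ k * k.factorial) = (f (k + l) * k.factorial) * c ^ k := by ring
        _ ≤ (f k * (c ^ l * (k + l).factorial)) * c ^ k := mul_le_mul_of_nonneg_right h5 h6.le
        _ = f k * (c ^ (k + l) * (k + l).factorial) := by rw [pow_add]; ring

end Pool.Agent.Helper80.CT
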