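import Pool.Agent.Helper80.CT.Defs

/-!
# Block CT-HULL: cells and their convex hulls

PROOFS.
* `mem_hull`: `x ∈ convexHull ℝ (vx '' S)` iff `(1, x) = ∑ t p • cubeA p` for some `t ≥ 0` supported on `S`: the first coordinate of the
  equation says `∑ t = 1` (`Finset.mem_convexHull'`, `Finset.convexHull_eq`, `mem_convexHull_image`-like lemmas with `Finset.centerMass`, or directly with
  `convexHull_min` and `Convex.sum_mem`; `vx` is injective).
* `Tri.indep`: the vectors `cubeA p`, `p ∈ S`, are linearly independent for every cell `S`: if `∑_{p ∈ S} g p • cubeA p = 0` let `t p = max (g p) 0`,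
  `t' p = max (- g p) 0` on `S` and `0` outside: `t = t'` by `un`, so `g = 0` on `S`.
* `Tri.card_le`: `ℝ × (Fin n → ℝ)` has dimension `n + 1`.
* `Tri.affine`: affine independence of the vertices: if `∑_{p ∈ S} g p = 0` and `∑_{p ∈ S} g p • vx p = 0` then `g = 0` on `S`.
* `null_hull`: `S.card ≤ n`: the affine span of `vx '' S` is a proper subspace (its dimension is at most `S.card - 1 < n`, or `S = ∅`), and
  `convexHull ⊆ affineSpan`: `MeasureTheory.Measure.addHaar_affineSubspace`.
-/

set_option autoImplicit false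

namespace Pool.Agent.Helper80.CT

open Finset

theorem vx_inj {κ : Type} : Function.Injective (vx : (κ → Bool) → κ → ℝ) := by
  intro p q h
  funext i
  have h1 := congrFun h i
  unfold vx at h1
  by_cases hp : p i = true <;> by_cases hq : q i = true
  · rw [hp, hq]
  · rw [if_pos hp, if_neg hq] at h1
    norm_num at h1
  · rw [if_neg hp, if_pos hq] at h1
    norm_num at h1
  · rw [Bool.not_eq_true] at hp hq
    rw [hp, hq]

private theorem sum_cubeA {n : ℕ} (s : Finset (Fin n → Bool)) (t : (Fin n → Bool) → ℝ) :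
    ∑ p ∈ s, t p • cubeA (Fin n) p = (∑ p ∈ s, t p, ∑ p ∈ s, t p • vx p) := by
  refine Prod.ext ?_ ?_
  · rw [Prod.fst_sum]
    refine Finset.sum_congr rfl fun p _ => ?_
    show t p * 1 = t p
    rw [mul_one]
  · rw [Prod.snd_sum]
    exact Finset.sum_congr rfl fun p _ => rfl

theorem mem_hull {n : ℕ} (S : Finset (Fin n → Bool)) (x : Fin n → ℝ) :
    x ∈ convexHull ℝ (vx '' (S : Set (Fin n → Bool))) ↔
      ∃ t : (Fin n → Bool) → ℝ, (∀ p, 0 ≤ t p) ∧ (∀ p, p ∉ S → t p = 0) ∧
        ∑ p, t p • cubeA (Fin n) p = ((1 : ℝ), x) := by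
  classical
  constructor
  · intro hx
    obtain ⟨H, hH⟩ : ∃ H : Set (Fin n → ℝ), H = {x | ∃ t : (Fin n → Bool) → ℝ, (∀ p, 0 ≤ t p) ∧
        (∀ p, p ∉ S → t p = 0) ∧ ∑ p, t p • cubeA (Fin n) p = ((1 : ℝ), x)} := ⟨_, rfl⟩
    have h1 : convexHull ℝ (vx '' (S : Set (Fin n → Bool))) ⊆ H := by
      refine convexHull_min ?_ ?_
      · rintro _ ⟨p, hp, rfl⟩
        rw [hH]
        refine ⟨Pi.single p 1, fun q => ?_, fun q hq => ?_, ?_⟩
        · rw [Pi.single_apply]
          split_ifs
          · exact zero_le_one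
          · exact le_rfl
        · rw [Pi.single_apply, if_neg]
          rintro rfl
          exact hq hp
        · rw [Finset.sum_eq_single p]
          · rw [Pi.single_eq_same, one_smul]
            rfl
          · intro q _ hq
            rw [Pi.single_eq_of_ne hq, zero_smul]
          · intro h
            exact absurd (Finset.mem_univ _) h
      · intro y hy z hz a b ha hb hab
        rw [hH] at hy hz ⊢
        obtain ⟨t, t1, t2, t3⟩ := hy
        obtain ⟨u, u1, u2, u3⟩ := hz
        refine ⟨fun p => a * t p + b * u p, fun p => ?_, fun p hp => ?_, ?_⟩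
        · exact add_nonneg (mul_nonneg ha (t1 p)) (mul_nonneg hb (u1 p))
        · show a * t p + b * u p = 0
          rw [t2 p hp, u2 p hp, mul_zero, mul_zero, add_zero]
        · have e1 : ∑ p, (a * t p + b * u p) • cubeA (Fin n) p =
              a • ∑ p, t p • cubeA (Fin n) p + b • ∑ p, u p • cubeA (Fin n) p := by
            rw [Finset.smul_sum, Finset.smul_sum, ← Finset.sum_add_distrib]
            refine Finset.sum_congr rfl fun p _ => ?_
            rw [add_smul, mul_smul, mul_smul]
          rw [e1, t3, u3]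
          refine Prod.ext ?_ rfl
          show a * 1 + b * 1 = 1
          rw [mul_one, mul_one, hab]
    have h2 := h1 hx
    rw [hH] at h2
    exact h2
  · rintro ⟨t, t1, t2, t3⟩
    rw [sum_cubeA] at t3
    have h1 : ∑ p, t p = 1 := congrArg Prod.fst t3
    have h2 : ∑ p, t p • vx p = x := congrArg Prod.snd t3
    have h3 : ∑ p ∈ S, t p = 1 := by
      rw [← h1]
      exact Finset.sum_subset (Finset.subset_univ _) fun p _ hp => t2 p hp
    have h4 : ∑ p ∈ S, t p • vx p = x := by
      rw [← h2]
      exact Finset.sum_subset (Finset.subset_univ _) fun p _ hp => by rw [t2 p hp, zero_smul]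
    rw [← h4]
    exact (convex_convexHull ℝ _).sum_mem (fun p _ => t1 p) h3
      fun p hp => subset_convexHull ℝ _ ⟨p, hp, rfl⟩

theorem Tri.indep {n : ℕ} {T : Finset (Finset (Fin n → Bool))} (h : Tri (cubeA (Fin n)) (cubeK (Fin n)) T) :
    ∀ S ∈ T, ∀ g : (Fin n → Bool) → ℝ, ∑ p ∈ S, g p • cubeA (Fin n) p = 0 → ∀ p ∈ S, g p = 0 := by
  classical
  intro S hS g hg p hp
  have h1 : ∀ u : (Fin n → Bool) → ℝ, ∑ q, (if q ∈ S then u q else 0) • cubeA (Fin n) q =
      ∑ q ∈ S, u q • cubeA (Fin n) q := by
    intro u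
    simp only [ite_smul, zero_smul]
    rw [Finset.sum_ite_mem, Finset.univ_inter]
  have h2 := h.un S hS S hS (fun q => if q ∈ S then max (g q) 0 else 0)
    (fun q => if q ∈ S then max (-g q) 0 else 0)
    (fun q => by
      show 0 ≤ if q ∈ S then max (g q) 0 else 0
      split_ifs
      · exact le_max_right _ _
      · exact le_rfl)
    (fun q hq => if_neg hq)
    (fun q => by
      show 0 ≤ if q ∈ S then max (-g q) 0 else 0
      split_ifs
      · exact le_max_right _ _
      · exact le_rfl)
    (fun q hq => if_neg hq) (by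
      rw [h1, h1, ← sub_eq_zero, ← Finset.sum_sub_distrib, ← hg]
      refine Finset.sum_congr rfl fun q _ => ?_
      rw [← sub_smul]
      congr 1
      rcases le_total 0 (g q) with h3 | h3
      · rw [max_eq_left h3, max_eq_right (by linarith)]
        ring
      · rw [max_eq_right h3, max_eq_left (by linarith)]
        ring)
  have h3 := congrFun h2 p
  simp only [if_pos hp] at h3
  rcases le_total 0 (g p) with h4 | h4
  · rw [max_eq_left h4, max_eq_right (by linarith)] at h3
    exact h3
  · rw [max_eq_right h4, max_eq_left (by linarith)] at h3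
    linarith

theorem Tri.card_le {n : ℕ} {T : Finset (Finset (Fin n → Bool))}
    (h : Tri (cubeA (Fin n)) (cubeK (Fin n)) T) : ∀ S ∈ T, S.card ≤ n + 1 := by
  classical
  intro S hS
  have h1 : LinearIndependent ℝ fun p : S => cubeA (Fin n) (p : Fin n → Bool) := by
    rw [Fintype.linearIndependent_iff]
    intro g hg i
    have h2 := h.indep S hS (fun p => if hp : p ∈ S then g ⟨p, hp⟩ else 0) (by
      rw [← Finset.sum_coe_sort, ← hg]
      refine Finset.sum_congr rfl fun q _ => ?_
      rw [dif_pos q.2]) i i.2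
    rw [dif_pos i.2] at h2
    exact h2
  have h2 := h1.fintype_card_le_finrank
  rw [Fintype.card_coe, Module.finrank_prod, Module.finrank_self, Module.finrank_fin_fun] at h2
  omega

theorem Tri.affine {n : ℕ} {T : Finset (Finset (Fin n → Bool))} (h : Tri (cubeA (Fin n)) (cubeK (Fin n)) T) :
    ∀ S ∈ T, ∀ {ι : Type} (f : ι → Fin n → Bool), Function.Injective f → (∀ i, f i ∈ S) →
      AffineIndependent ℝ fun i => vx (f i) := by
  classical
  intro S hS ι f hf hfS
  rw [affineIndependent_iff]
  intro s w h1 h2 e he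
  have h3 := h.indep S hS (fun p => ∑ i ∈ s with f i = p, w i) (by
    have e1 : ∀ p ∈ S, (∑ i ∈ s with f i = p, w i) • cubeA (Fin n) p =
        ∑ i ∈ s with f i = p, w i • cubeA (Fin n) (f i) := by
      intro p _
      rw [Finset.sum_smul]
      refine Finset.sum_congr rfl fun i hi => ?_
      rw [(Finset.mem_filter.1 hi).2]
    rw [Finset.sum_congr rfl e1, Finset.sum_fiberwise_of_maps_to fun i _ => hfS i]
    refine Prod.ext ?_ ?_
    · rw [Prod.fst_sum]
      show ∑ i ∈ s, w i * 1 = 0
      simp only [mul_one]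
      exact h1
    · rw [Prod.snd_sum]
      exact h2) (f e) (hfS e)
  have h4 : (s.filter fun i => f i = f e) = {e} := by
    ext i
    rw [Finset.mem_filter, Finset.mem_singleton]
    constructor
    · intro h5
      exact hf h5.2
    · rintro rfl
      exact ⟨he, rfl⟩
  rw [h4, Finset.sum_singleton] at h3
  exact h3

theorem null_hull {n : ℕ} (S : Finset (Fin n → Bool)) (hS : S.card ≤ n) :
    MeasureTheory.volume (convexHull ℝ (vx '' (S : Set (Fin n → Bool)))) = 0 := by
  classical
  rcases Finset.eq_empty_or_nonempty S with rfl | hne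
  · rw [Finset.coe_empty, Set.image_empty, convexHull_empty, MeasureTheory.measure_empty]
  obtain ⟨m, hm⟩ : ∃ m, S.card = m + 1 := ⟨S.card - 1, by
    have := Finset.card_pos.2 hne
    omega⟩
  have h1 := finrank_vectorSpan_image_finset_le ℝ (vx : (Fin n → Bool) → Fin n → ℝ) S hm
  have h2 : affineSpan ℝ (vx '' (S : Set (Fin n → Bool))) ≠ ⊤ := by
    intro h3
    have h4 : vectorSpan ℝ (vx '' (S : Set (Fin n → Bool))) = ⊤ := by
      rw [← direction_affineSpan, h3, AffineSubspace.direction_top]
    rw [Finset.coe_image, h4, finrank_top, Module.finrank_fin_fun] at h1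
    omega
  refine MeasureTheory.measure_mono_null (convexHull_subset_affineSpan _)
    (MeasureTheory.Measure.addHaar_affineSubspace _ _ h2)

end Pool.Agent.Helper80.CT
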