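import Pool.Agent.Helper80.CT.Defs

/-!
# Block CT-TRANS: change of the names of the coordinates; small cubes

PROOFS.
* `trans_sum`: the bijection `(κ → Bool) × (Fin l → Bool) ≃ (κ' → Bool)` given by `e`; `T''` is the image of `T'` (`Finset.map` of
  finsets).  For `t` on `κ' → Bool` pull back along the bijection (`Equiv.sum_comp`); the equation for `cubeA κ'` is the equation for `ccA κ l` with
  the coordinates `z.2 (e (inl i))`, `z.2 (e (inr i))`.
* `tri_zero`: the only cell is `univ` (one vertex).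
* `tri_prod_one`: `l = 1`, `m = 1`: the only cell is `univ` (two vertices): `t (v, 0)` is `x` for `v = fun _ => true` and `1 - x` for
  `v = fun _ => false`.  `rr univ 0 = 1`.
-/

/-!
# x
-/

set_option autoImplicit false

namespace Pool.Agent.Helper80.CT

open Finset

section trans

variable {κ κ' : Type} {l : ℕ}

/-- Change of names of the coordinates, vertices. -/
def tf (e : κ ⊕ Fin l ≃ κ') : (κ' → Bool) ≃ (κ → Bool) × (Fin l → Bool) where
  toFun v := (fun i => v (e (Sum.inl i)), fun i => v (e (Sum.inr i)))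
  invFun x := fun k => Sum.elim x.1 x.2 (e.symm k)
  left_inv v := by
    funext k
    obtain ⟨i, rfl⟩ := e.surjective k
    rcases i with i | i
    · simp
    · simp
  right_inv x := by
    simp

/-- Change of names of the coordinates, vectors. -/
def tL (e : κ ⊕ Fin l ≃ κ') : (ℝ × (κ' → ℝ)) →ₗ[ℝ] ℝ × (κ → ℝ) × (Fin l → ℝ) where
  toFun z := (z.1, fun i => z.2 (e (Sum.inl i)), fun i => z.2 (e (Sum.inr i)))
  map_add' _ _ := rfl
  map_smul' _ _ := rfl

theorem tL_inj (e : κ ⊕ Fin l ≃ κ') {x y : ℝ × (κ' → ℝ)} (h : tL e x = tL e y) : x = y := by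
  have h1 : x.1 = y.1 := congrArg (fun z => z.1) h
  have h2 : ∀ i, x.2 (e (Sum.inl i)) = y.2 (e (Sum.inl i)) := fun i =>
    congrArg (fun z => z.2.1 i) h
  have h3 : ∀ i, x.2 (e (Sum.inr i)) = y.2 (e (Sum.inr i)) := fun i =>
    congrArg (fun z => z.2.2 i) h
  refine Prod.ext h1 (funext fun k => ?_)
  rcases h4 : e.symm k with i | i
  · rw [Equiv.symm_apply_eq] at h4
    rw [h4, h2]
  · rw [Equiv.symm_apply_eq] at h4
    rw [h4, h3]

theorem tL_A (e : κ ⊕ Fin l ≃ κ') (p : κ' → Bool) : tL e (cubeA κ' p) = ccA κ l (tf e p) := rfl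

theorem tL_sum [Fintype κ] [Fintype κ'] [DecidableEq κ] [DecidableEq κ'] (e : κ ⊕ Fin l ≃ κ')
    (t : (κ → Bool) × (Fin l → Bool) → ℝ) :
    tL e (∑ p, t (tf e p) • cubeA κ' p) = ∑ x, t x • ccA κ l x := by
  rw [map_sum, ← Equiv.sum_comp (tf e) (fun x => t x • ccA κ l x)]
  refine Finset.sum_congr rfl fun p _ => ?_
  rw [map_smul, tL_A]

end trans

theorem trans_sum {κ κ' : Type} [Fintype κ] [Fintype κ'] [DecidableEq κ] [DecidableEq κ'] {l : ℕ}
    (e : κ ⊕ Fin l ≃ κ') {T' : Finset (Finset ((κ → Bool) × (Fin l → Bool)))}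
    (h : Tri (ccA κ l) (ccK κ l) T') :
    ∃ T'' : Finset (Finset (κ' → Bool)), Tri (cubeA κ') (cubeK κ') T'' ∧ T''.card ≤ T'.card := by
  refine ⟨T'.map (Finset.mapEmbedding (tf e).symm.toEmbedding).toEmbedding, ⟨?_, ?_⟩, (Finset.card_map _).le⟩
  · intro z hz
    have hz' : tL e z ∈ ccK κ l := ⟨hz.1, fun i => hz.2 _, fun i => hz.2 _⟩
    obtain ⟨S, hS, t, h0, h1, h2⟩ := h.ex _ hz'
    refine ⟨S.map (tf e).symm.toEmbedding, Finset.mem_map_of_mem _ hS, fun p => t (tf e p),
      fun p => h0 _, fun p hp => h1 _ (fun hp' => hp ?_), ?_⟩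
    · rw [Finset.mem_map]
      exact ⟨_, hp', (tf e).symm_apply_apply p⟩
    · apply tL_inj e
      rw [tL_sum, h2]
  · intro S hS S' hS' t t' h0 h1 h0' h1' heq
    rw [Finset.mem_map] at hS hS'
    obtain ⟨R, hR, rfl⟩ := hS
    obtain ⟨R', hR', rfl⟩ := hS'
    have key := h.un R hR R' hR' (fun x => t ((tf e).symm x)) (fun x => t' ((tf e).symm x))
      (fun x => h0 _) (fun x hx => h1 _ (fun hx' => hx ?_))
      (fun x => h0' _) (fun x hx => h1' _ (fun hx' => hx ?_)) ?_
    · funext p
      have := congrFun key (tf e p)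
      simpa only [Equiv.symm_apply_apply] using this
    · have hx2 : (tf e).symm x ∈ R.map (tf e).symm.toEmbedding := hx'
      rw [Finset.mem_map] at hx2
      obtain ⟨y, hy, hyx⟩ := hx2
      rwa [(tf e).symm.injective hyx] at hy
    · have hx2 : (tf e).symm x ∈ R'.map (tf e).symm.toEmbedding := hx'
      rw [Finset.mem_map] at hx2
      obtain ⟨y, hy, hyx⟩ := hx2
      rwa [(tf e).symm.injective hyx] at hy
    · rw [← tL_sum e, ← tL_sum e]
      simp only [Equiv.symm_apply_apply]
      rw [heq]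

theorem tri_zero : Tri (cubeA (Fin 0)) (cubeK (Fin 0)) {Finset.univ} := by
  constructor
  · intro z hz
    refine ⟨_, Finset.mem_singleton_self _, fun _ => 1, fun _ => zero_le_one,
      fun p hp => absurd (Finset.mem_univ p) hp, ?_⟩
    rw [Fintype.sum_unique, one_smul]
    refine Prod.ext hz.1.symm (funext fun i => i.elim0)
  · intro S _ S' _ t t' _ _ _ _ heq
    rw [Fintype.sum_unique, Fintype.sum_unique] at heq
    have h2 := congrArg Prod.fst heq
    rw [Prod.smul_fst, Prod.smul_fst] at h2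
    simp only [cubeA, smul_eq_mul, mul_one] at h2
    funext p
    exact (congrArg t (Subsingleton.elim p _)).trans (h2.trans (congrArg t' (Subsingleton.elim _ p)))

theorem sum_prod_one {M : Type} [AddCommMonoid M] (f : (Fin 1 → Bool) × Fin 1 → M) :
    ∑ p, f p = f (fun _ => true, 0) + f (fun _ => false, 0) := by
  rw [Fintype.sum_prod_type]
  simp only [Fin.sum_univ_one]
  rw [← Equiv.sum_comp (Equiv.funUnique (Fin 1) Bool).symm, Fintype.sum_bool]
  rfl

theorem tri_prod_one : Tri (prA 1 1) (prK 1 1) {Finset.univ} := by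
  constructor
  · intro z hz
    obtain ⟨h1, h2, h3⟩ := hz
    rw [Fin.sum_univ_one] at h3
    refine ⟨_, Finset.mem_singleton_self _, fun p => if p.1 0 then z.1 0 else 1 - z.1 0, ?_,
      fun p hp => absurd (Finset.mem_univ p) hp, ?_⟩
    · intro p
      dsimp only
      split_ifs
      · exact (h1 0).1
      · linarith [(h1 0).2]
    · rw [sum_prod_one]
      refine Prod.ext (funext fun i => ?_) (funext fun i => ?_)
      · rw [Subsingleton.elim i 0]
        simp [prA, vx]
      · rw [Subsingleton.elim i 0]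
        simp [prA, h3]
  · intro S _ S' _ t t' _ _ _ _ heq
    rw [sum_prod_one, sum_prod_one] at heq
    have h1 := congrArg (fun z => z.1 0) heq
    have h2 := congrArg (fun z => z.2 0) heq
    simp [prA, vx] at h1 h2
    funext p
    rcases p with ⟨v, j⟩
    have hj : j = 0 := Subsingleton.elim _ _
    have hv : v = fun _ => v 0 := funext fun i => by rw [Subsingleton.elim i 0]
    rw [hv, hj]
    cases v 0
    · linarith
    · linarith

theorem rr_prod_one (j : Fin 1) : rr (Finset.univ : Finset ((Fin 1 → Bool) × Fin 1)) j = 1 := by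
  unfold rr lay
  simp

end Pool.Agent.Helper80.CT
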