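import Pool.Agent.Helper80.CT.Step
import Pool.Agent.Helper80.CT.Trans
import Pool.Agent.Helper80.CT.Hull
import Pool.Agent.Helper80.CT.Avg
import Pool.Agent.Helper80.CT.GrowReal

/-!
# Block CT-GROW: iteration

PROOFS.
* `tri_add`: `exists_coloring` with `N = n + 1` (`Tri.card_le`), `step`, `trans_sum` with `finSumFinEquiv`.
* `tri_all`: for all `n` there is a triangulation: `tri_zero`, and `step` with `tri_prod_one`, `trans_sum` (no bound for the number of cells needed).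
* `exists_tri`: choose for each `n` a triangulation with the least number `f n` of cells (`Nat.find`), `tri_add` gives the recursion of `grow_real`, which is
  applied to a smaller constant `c'`: `0 < c' < c`, `w / m^l < c'^l` (continuity); `B c'^n ≤ c^n` for large `n`.
-/

set_option autoImplicit false

namespace Pool.Agent.Helper80.CT

open Finset

/-- Independence of the instance. -/
theorem Tri.inst {P E : Type} [AddCommGroup E] [Module ℝ E] (i1 i2 : Fintype P) {A : P → E} {K : Set E}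
    {T : Finset (Finset P)} (h : @Tri P E i1 _ _ A K T) : @Tri P E i2 _ _ A K T := by
  have h1 : i1 = i2 := Subsingleton.elim _ _
  subst h1
  exact h

theorem tri_add {l m : ℕ} (hl : 1 ≤ l) (hm : 1 ≤ m) {D : Finset (Finset ((Fin l → Bool) × Fin m))}
    (hD : Tri (prA l m) (prK l m) D) (hr : ∀ τ ∈ D, ∑ j, rr τ j = l) {n : ℕ} {T : Finset (Finset (Fin n → Bool))}
    (hT : Tri (cubeA (Fin n)) (cubeK (Fin n)) T) :
    ∃ T' : Finset (Finset (Fin (n + l) → Bool)), Tri (cubeA (Fin (n + l))) (cubeK (Fin (n + l))) T' ∧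
      (T'.card : ℝ) ≤ T.card * (∑ τ ∈ D, wt τ) *
        ((((n + 1 : ℕ) : ℝ) / m) ^ l + 2 * (l : ℝ) ^ 2 * (((n + 1 : ℕ) : ℝ) + l) ^ (l - 1)) := by
  obtain ⟨c, hc⟩ := exists_coloring T (n + 1) hl hm (Tri.card_le hT) D (fun τ => rr τ) hr
  obtain ⟨T', hT', hcard⟩ := step (κ := Fin n) (T := T) (Tri.inst _ _ hT) hD c
  obtain ⟨T'', hT'', hcard'⟩ := trans_sum (finSumFinEquiv : Fin n ⊕ Fin l ≃ Fin (n + l)) (T' := T')
    (Tri.inst _ _ hT')
  refine ⟨T'', hT'', ?_⟩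
  refine le_trans ?_ hc
  exact_mod_cast hcard'.trans hcard

theorem tri_all (n : ℕ) : ∃ T : Finset (Finset (Fin n → Bool)), Tri (cubeA (Fin n)) (cubeK (Fin n)) T := by
  induction n with
  | zero => exact ⟨_, tri_zero⟩
  | succ n ih =>
    obtain ⟨T, hT⟩ := ih
    obtain ⟨T', hT', _⟩ := step (κ := Fin n) (T := T) (Tri.inst _ _ hT) tri_prod_one (fun _ => 0)
    obtain ⟨T'', hT'', _⟩ := trans_sum (finSumFinEquiv : Fin n ⊕ Fin 1 ≃ Fin (n + 1)) (T' := T')
      (Tri.inst _ _ hT')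
    exact ⟨T'', hT''⟩

theorem exists_tri {l m : ℕ} (hl : 1 ≤ l) (hm : 1 ≤ m) {D : Finset (Finset ((Fin l → Bool) × Fin m))}
    (hD : Tri (prA l m) (prK l m) D) (hr : ∀ τ ∈ D, ∑ j, rr τ j = l) {c : ℝ} (hc : 0 < c)
    (hwc : (∑ τ ∈ D, wt τ) / (m : ℝ) ^ l < c ^ l) :
    ∃ n₀ : ℕ, ∀ n ≥ n₀, ∃ T : Finset (Finset (Fin n → Bool)), Tri (cubeA (Fin n)) (cubeK (Fin n)) T ∧
      (T.card : ℝ) ≤ c ^ n * n.factorial := by
  classical
  have hw : 0 ≤ ∑ τ ∈ D, wt τ := by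
    refine Finset.sum_nonneg fun τ _ => ?_
    unfold wt
    exact Finset.prod_nonneg fun j _ => by positivity
  -- a smaller constant
  obtain ⟨c', hc'⟩ : ∃ c' : ℝ, c' < c ∧ 0 < c' ∧ (∑ τ ∈ D, wt τ) / (m : ℝ) ^ l < c' ^ l := by
    have h1 : ∀ᶠ x in nhds c, (∑ τ ∈ D, wt τ) / (m : ℝ) ^ l < x ^ l :=
      ((continuous_pow l).tendsto c).eventually_const_lt hwc
    have h2 : ∀ᶠ x in nhds c, 0 < x := lt_mem_nhds hc
    have h3 : ∀ᶠ x in nhdsWithin c (Set.Iio c),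
        x < c ∧ 0 < x ∧ (∑ τ ∈ D, wt τ) / (m : ℝ) ^ l < x ^ l := by
      filter_upwards [self_mem_nhdsWithin, nhdsWithin_le_nhds h1, nhdsWithin_le_nhds h2]
        with x hx hx1 hx2
      exact ⟨hx, hx2, hx1⟩
    exact h3.exists
  obtain ⟨hcc, hc0, hwc'⟩ := hc'
  -- minimal triangulations
  have hex : ∀ n, ∃ k, ∃ T : Finset (Finset (Fin n → Bool)),
      Tri (cubeA (Fin n)) (cubeK (Fin n)) T ∧ T.card = k := fun n => by
    obtain ⟨T, hT⟩ := tri_all n
    exact ⟨_, T, hT, rfl⟩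
  have hmin : ∀ n (T : Finset (Finset (Fin n → Bool))), Tri (cubeA (Fin n)) (cubeK (Fin n)) T →
      Nat.find (hex n) ≤ T.card := fun n T hT => Nat.find_min' (hex n) ⟨T, hT, rfl⟩
  obtain ⟨B, hB⟩ := grow_real hl hm hw hc0 hwc' (fun n => (Nat.find (hex n) : ℝ))
    (fun n => Nat.cast_nonneg _) (fun n => by
      obtain ⟨T, hT, hcard⟩ := Nat.find_spec (hex n)
      obtain ⟨T', hT', hle⟩ := tri_add hl hm hD hr hT
      rw [hcard] at hle
      refine le_trans ?_ hle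
      exact_mod_cast hmin _ T' hT')
  have hlim : Filter.Tendsto (fun n : ℕ => B * (c' / c) ^ n) Filter.atTop (nhds (B * 0)) :=
    (tendsto_pow_atTop_nhds_zero_of_lt_one (div_nonneg hc0.le hc.le)
      ((div_lt_one hc).mpr hcc)).const_mul B
  rw [mul_zero] at hlim
  have hev := hlim.eventually_lt_const (zero_lt_one' ℝ)
  obtain ⟨n₀, hn₀⟩ := Filter.eventually_atTop.mp hev
  refine ⟨n₀, fun n hn => ?_⟩
  obtain ⟨T, hT, hcard⟩ := Nat.find_spec (hex n)
  refine ⟨T, hT, ?_⟩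
  rw [hcard]
  refine (hB n).trans ?_
  have h1 := hn₀ n hn
  have h2 : B * c' ^ n ≤ c ^ n := by
    have h3 : B * (c' / c) ^ n * c ^ n = B * c' ^ n := by
      rw [mul_assoc, ← mul_pow, div_mul_cancel₀ _ hc.ne']
    rw [← h3]
    have h4 : 0 < c ^ n := pow_pos hc n
    nlinarith
  exact mul_le_mul_of_nonneg_right h2 (Nat.cast_nonneg _)

end Pool.Agent.Helper80.CT
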