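import Pool.Agent.Helper80.CT.RegFin

/-!
# The numbers of the vertices; tables of values
-/

set_option autoImplicit false

namespace Pool.Agent.Helper80.CT

open Finset

/-- The number of a vertex of the cube. -/
def iv : {l : ℕ} → (Fin l → Bool) → ℕ
  | 0, _ => 0
  | l + 1, v => (bif v 0 then 2 ^ l else 0) + iv (Fin.tail v)

/-- The number of a vertex of the product. -/
def ix {l m : ℕ} (p : (Fin l → Bool) × Fin m) : ℕ := (p.2 : ℕ) * 2 ^ l + iv p.1

theorem iv_lt : ∀ {l : ℕ} (v : Fin l → Bool), iv v < 2 ^ l
  | 0, _ => by simp [iv]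
  | l + 1, v => by
    have h := iv_lt (Fin.tail v)
    unfold iv
    rw [pow_succ]
    cases v 0
    · simp only [cond_false]
      omega
    · simp only [cond_true]
      omega

theorem iv_inj : ∀ {l : ℕ} (v w : Fin l → Bool), iv v = iv w → v = w
  | 0, _, _, _ => Subsingleton.elim _ _
  | l + 1, v, w, h => by
    have h1 := iv_lt (Fin.tail v)
    have h2 := iv_lt (Fin.tail w)
    unfold iv at h
    have h3 : v 0 = w 0 ∧ iv (Fin.tail v) = iv (Fin.tail w) := by
      cases hv : v 0 <;> cases hw : w 0 <;> rw [hv, hw] at h <;>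
        simp only [cond_false, cond_true] at h
      · exact ⟨rfl, by omega⟩
      · omega
      · omega
      · exact ⟨rfl, by omega⟩
    have h4 := iv_inj _ _ h3.2
    rw [← Fin.cons_self_tail v, ← Fin.cons_self_tail w, h3.1, h4]

theorem iv_surj {l : ℕ} (k : ℕ) (hk : k < 2 ^ l) : ∃ v : Fin l → Bool, iv v = k := by
  have h1 : Function.Bijective (fun v : Fin l → Bool => (⟨iv v, iv_lt v⟩ : Fin (2 ^ l))) := by
    rw [Fintype.bijective_iff_injective_and_card]
    refine ⟨fun v w h => iv_inj v w (by simpa using h), ?_⟩
    simp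
  obtain ⟨v, hv⟩ := h1.2 ⟨k, hk⟩
  exact ⟨v, by simpa using congrArg Fin.val hv⟩

theorem ix_inj {l m : ℕ} (p q : (Fin l → Bool) × Fin m) (h : ix p = ix q) : p = q := by
  unfold ix at h
  have h1 := iv_lt p.1
  have h2 := iv_lt q.1
  have h3 : (p.2 : ℕ) = q.2 := by
    have e1 : ((p.2 : ℕ) * 2 ^ l + iv p.1) / 2 ^ l = p.2 := by
      rw [mul_comm, Nat.mul_add_div (by positivity), Nat.div_eq_of_lt h1, add_zero]
    have e2 : ((q.2 : ℕ) * 2 ^ l + iv q.1) / 2 ^ l = q.2 := by
      rw [mul_comm, Nat.mul_add_div (by positivity), Nat.div_eq_of_lt h2, add_zero]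
    rw [← e1, ← e2, h]
  rw [h3] at h
  exact Prod.ext (iv_inj _ _ (by omega)) (Fin.ext h3)

/-- The values of a linear function on the vertices of a cube. -/
def subs : ℕ → List ℕ → List ℕ
  | 0, _ => [0]
  | l + 1, L => subs l L.tail ++ (subs l L.tail).map (Nat.add (L.headD 0))

/-- The values on the product. -/
def tab (s : List ℕ) : List ℕ → List ℕ
  | [] => []
  | a :: M => s.map (Nat.add a) ++ tab s M

theorem subs_succ (l : ℕ) (L : List ℕ) :
    subs (l + 1) L = subs l L.tail ++ (subs l L.tail).map (Nat.add (L.headD 0)) := rfl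

theorem iv_succ {l : ℕ} (v : Fin (l + 1) → Bool) :
    iv v = (bif v 0 then 2 ^ l else 0) + iv (Fin.tail v) := rfl

theorem length_subs : ∀ (l : ℕ) (L : List ℕ), (subs l L).length = 2 ^ l
  | 0, _ => rfl
  | l + 1, L => by
    unfold subs
    rw [List.length_append, List.length_map, length_subs l, pow_succ]
    omega

theorem length_tab (s : List ℕ) : ∀ M : List ℕ, (tab s M).length = M.length * s.length
  | [] => by simp [tab]
  | a :: M => by
    unfold tab
    rw [List.length_append, List.length_map, length_tab s M, List.length_cons]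
    ring

theorem subs_get : ∀ (l : ℕ) (L : List ℕ) (v : Fin l → Bool),
    (subs l L).getD (iv v) 0 = ∑ i : Fin l, if v i then L.getD i 0 else 0
  | 0, _, _ => by simp [subs, iv]
  | l + 1, L, v => by
    have ih := subs_get l L.tail (Fin.tail v)
    have h1 := iv_lt (Fin.tail v)
    have h0 : L.headD 0 = L.getD 0 0 := by cases L <;> simp
    have h2 : ∀ i : Fin l, L.tail.getD i 0 = L.getD (i.succ : Fin (l + 1)) 0 := by
      intro i
      cases L <;> simp
    rw [Fin.sum_univ_succ]
    have h3 : ∑ i : Fin l, (if v i.succ then L.getD (i.succ : Fin (l + 1)) 0 else 0) =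
        (subs l L.tail).getD (iv (Fin.tail v)) 0 := by
      rw [ih]
      refine Finset.sum_congr rfl fun i _ => ?_
      rw [h2]
      rfl
    rw [h3, subs_succ, iv_succ]
    cases v 0
    · simp only [cond_false, zero_add, Bool.false_eq_true, if_false]
      rw [List.getD_append _ _ _ _ (by rw [length_subs]; exact h1)]
    · simp only [cond_true, if_true]
      rw [List.getD_append_right _ _ _ _ (by rw [length_subs]; omega), length_subs,
        Nat.add_sub_cancel_left]
      rw [List.getD_eq_getElem ((subs l L.tail).map (Nat.add (L.headD 0))) 0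
          (by rw [List.length_map, length_subs]; exact h1),
        List.getElem_map, List.getD_eq_getElem (subs l L.tail) 0 (by rw [length_subs]; exact h1),
        h0]
      rfl

theorem tab_get (s : List ℕ) : ∀ (M : List ℕ) (j i : ℕ), j < M.length → i < s.length →
    (tab s M).getD (j * s.length + i) 0 = M.getD j 0 + s.getD i 0
  | [], j, i, hj, _ => absurd hj (by simp)
  | a :: M, 0, i, _, hi => by
    unfold tab
    rw [zero_mul, zero_add, List.getD_append _ _ _ _ (by rw [List.length_map]; exact hi),
      List.getD_eq_getElem _ _ (by rw [List.length_map]; exact hi), List.getElem_map,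
      List.getD_eq_getElem _ _ hi]
    simp
  | a :: M, j + 1, i, hj, hi => by
    have ih := tab_get s M j i (by simpa using hj) hi
    unfold tab
    have e : (j + 1) * s.length + i = s.length + (j * s.length + i) := by ring
    rw [e, List.getD_append_right _ _ _ _ (by rw [List.length_map]; omega), List.length_map,
      Nat.add_sub_cancel_left, ih]
    simp

end Pool.Agent.Helper80.CT
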