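import Pool.Agent.Helper80.CT.Defs

/-!
# Block CT-REG: regular triangulations

`b τ i` is the barycentric coordinate of the vertex `i` of the cell `τ` (a linear functional), `h` are heights, `ℓ τ z = ∑_{i ∈ cell τ} h i * b τ i z`
the linear function which is `h` at the vertices of `τ`.

PROOF of `ex`.  `z ∈ K`.  Take `τ` with the largest `ℓ τ z` (`Finite.exists_max`).  For `i ∈ cell τ`: `0 ≤ b τ i z`: otherwise the second
alternative of `hbd` holds, and `ℓ τ' z = ℓ τ z - c * b τ i z > ℓ τ z`.  So `t i = b τ i z` for `i ∈ cell τ`, `0` otherwise, works (`hrec`).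
PROOF of `un`.  Let `t`, `t'` have support in `cell τ`, `cell τ'` and `z = ∑ t i • A i = ∑ t' i • A i`.  `ℓ τ z = ∑ t i h i` (by `hdual`,
`ℓ τ (A i) = h i` for `i ∈ cell τ`) and `ℓ τ z = ∑ t' i ℓ τ (A i) ≤ ∑ t' i h i`, with equality only if `t' i = 0` for all `i ∉ cell τ` (`hlow`).  By symmetry
`∑ t' i h i ≤ ∑ t i h i`.  So both have support in `cell τ`, and `t i = b τ i z = t' i` for `i ∈ cell τ` (`hdual`).
-/

set_option autoImplicit false

namespace Pool.Agent.Helper80.CT

open Finset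

theorem reg_tri {ι P E : Type} [Fintype ι] [Nonempty ι] [Fintype P] [DecidableEq P] [AddCommGroup E] [Module ℝ E]
    (A : P → E) (K : Set E) (cell : ι → Finset P) (h : P → ℝ) (b : ι → P → E →ₗ[ℝ] ℝ)
    (hdual : ∀ τ, ∀ i ∈ cell τ, ∀ j ∈ cell τ, b τ i (A j) = if i = j then 1 else 0)
    (hrec : ∀ τ z, ∑ i ∈ cell τ, b τ i z • A i = z)
    (hlow : ∀ τ, ∀ j, j ∉ cell τ → ∑ i ∈ cell τ, h i * b τ i (A j) < h j)
    (hbd : ∀ τ, ∀ i ∈ cell τ, (∀ z ∈ K, 0 ≤ b τ i z) ∨ ∃ τ', ∃ c : ℝ, 0 < c ∧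
      ∀ z, ∑ j ∈ cell τ', h j * b τ' j z = ∑ j ∈ cell τ, h j * b τ j z - c * b τ i z) :
    Tri A K (Finset.univ.image cell) := by
  classical
  let L : ι → E →ₗ[ℝ] ℝ := fun τ => ∑ i ∈ cell τ, h i • b τ i
  have hL : ∀ τ z, L τ z = ∑ i ∈ cell τ, h i * b τ i z := by
    intro τ z
    simp only [L, LinearMap.sum_apply, LinearMap.smul_apply, smul_eq_mul]
  have hLin : ∀ τ, ∀ i ∈ cell τ, L τ (A i) = h i := by
    intro τ i hi
    rw [hL, Finset.sum_eq_single i]
    · rw [hdual τ i hi i hi, if_pos rfl, mul_one]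
    · intro j hj hji
      rw [hdual τ j hj i hi, if_neg hji, mul_zero]
    · intro h'
      exact absurd hi h'
  have hLout : ∀ τ, ∀ j, j ∉ cell τ → L τ (A j) < h j := by
    intro τ j hj
    rw [hL]
    exact hlow τ j hj
  have hle : ∀ τ j, L τ (A j) ≤ h j := by
    intro τ j
    by_cases hj : j ∈ cell τ
    · exact (hLin τ j hj).le
    · exact (hLout τ j hj).le
  have hsum : ∀ (f : E →ₗ[ℝ] ℝ) (t : P → ℝ), f (∑ p, t p • A p) = ∑ p, t p * f (A p) := by
    intro f t
    rw [map_sum]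
    exact Finset.sum_congr rfl fun p _ => by rw [map_smul, smul_eq_mul]
  constructor
  · intro z hz
    obtain ⟨τ, hτ⟩ := Finite.exists_max fun τ => L τ z
    have hnn : ∀ i ∈ cell τ, 0 ≤ b τ i z := by
      intro i hi
      rcases hbd τ i hi with h1 | ⟨τ', c, hc, h2⟩
      · exact h1 z hz
      · by_contra hneg
        have h3 := hτ τ'
        rw [hL, hL, h2 z] at h3
        have h4 := mul_neg_of_pos_of_neg hc (not_le.1 hneg)
        linarith
    refine ⟨cell τ, Finset.mem_image_of_mem _ (Finset.mem_univ τ),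
      fun p => if p ∈ cell τ then b τ p z else 0, ?_, ?_, ?_⟩
    · intro p
      dsimp only
      split_ifs with hp
      exacts [hnn p hp, le_rfl]
    · intro p hp
      exact if_neg hp
    · simp only [ite_smul, zero_smul]
      rw [Finset.sum_ite_mem, Finset.univ_inter]
      exact hrec τ z
  · intro S hS S' hS' t t' ht0 htS ht0' htS' heq
    obtain ⟨τ, -, rfl⟩ := Finset.mem_image.1 hS
    obtain ⟨τ', -, rfl⟩ := Finset.mem_image.1 hS'
    have key : ∀ σ (u : P → ℝ), (∀ p, p ∉ cell σ → u p = 0) →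
        L σ (∑ p, u p • A p) = ∑ p, u p * h p := by
      intro σ u hu
      rw [hsum]
      refine Finset.sum_congr rfl fun p _ => ?_
      by_cases hp : p ∈ cell σ
      · rw [hLin σ p hp]
      · rw [hu p hp, zero_mul, zero_mul]
    have key2 : ∀ σ (u : P → ℝ), (∀ p, 0 ≤ u p) →
        L σ (∑ p, u p • A p) ≤ ∑ p, u p * h p := by
      intro σ u hu
      rw [hsum]
      exact Finset.sum_le_sum fun p _ => mul_le_mul_of_nonneg_left (hle σ p) (hu p)
    have e1 := key τ t htS
    have e2 := key τ' t' htS'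
    have e3 := key2 τ t' ht0'
    have e4 := key2 τ' t ht0
    rw [← heq] at e2 e3
    have e5 : ∑ p, t' p * (h p - L τ (A p)) = 0 := by
      have h6 : L τ (∑ p, t p • A p) = ∑ p, t' p * L τ (A p) := by rw [heq, hsum]
      simp only [mul_sub, Finset.sum_sub_distrib]
      linarith
    have e6 : ∀ p, p ∉ cell τ → t' p = 0 := by
      intro p hp
      have h7 := (Finset.sum_eq_zero_iff_of_nonneg
        (fun q _ => mul_nonneg (ht0' q) (sub_nonneg.2 (hle τ q)))).1 e5 p (Finset.mem_univ p)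
      rcases mul_eq_zero.1 h7 with h8 | h8
      · exact h8
      · exact absurd h8 (sub_pos.2 (hLout τ p hp)).ne'
    have key3 : ∀ u : P → ℝ, (∀ p, p ∉ cell τ → u p = 0) → ∀ p ∈ cell τ,
        b τ p (∑ q, u q • A q) = u p := by
      intro u hu p hp
      rw [hsum, Finset.sum_eq_single p]
      · rw [hdual τ p hp p hp, if_pos rfl, mul_one]
      · intro q _ hq
        by_cases hqc : q ∈ cell τ
        · rw [hdual τ p hp q hqc, if_neg (Ne.symm hq), mul_zero]
        · rw [hu q hqc, zero_mul]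
      · intro h'
        exact absurd (Finset.mem_univ p) h'
    funext p
    by_cases hp : p ∈ cell τ
    · rw [← key3 t htS p hp, heq, key3 t' e6 p hp]
    · rw [htS p hp, e6 p hp]

end Pool.Agent.Helper80.CT
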