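import Pool.Agent.Helper80.CT.Reg

/-!
# Regular triangulations, a finite criterion
-/

set_option autoImplicit false

namespace Pool.Agent.Helper80.CT

open Finset

theorem reg_fin {ι P E : Type} [Fintype ι] [Nonempty ι] [Fintype P] [DecidableEq P] [AddCommGroup E] [Module ℝ E]
    [FiniteDimensional ℝ E] (A : P → E) (K : Set E) (cell : ι → Finset P) (h : P → ℝ) (L : ι → E →ₗ[ℝ] ℝ)
    (hcard : ∀ τ, (cell τ).card = Module.finrank ℝ E)
    (hin : ∀ τ, ∀ i ∈ cell τ, L τ (A i) = h i)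
    (hlow : ∀ τ, ∀ j, j ∉ cell τ → L τ (A j) < h j)
    (hbd : ∀ τ, ∀ i ∈ cell τ, (∃ f : E →ₗ[ℝ] ℝ, (∀ z ∈ K, 0 ≤ f z) ∧ 0 < f (A i) ∧
      ∀ j ∈ cell τ, j ≠ i → f (A j) = 0) ∨ ∃ τ', i ∉ cell τ' ∧ ∀ j ∈ cell τ, j ≠ i → j ∈ cell τ') :
    Tri A K (Finset.univ.image cell) := by
  classical
  have h1 : ∀ τ, ∀ i ∈ cell τ, ∃ g : E →ₗ[ℝ] ℝ, 0 < g (A i) ∧ (∀ j ∈ cell τ, j ≠ i → g (A j) = 0) ∧
      ((∀ z ∈ K, 0 ≤ g z) ∨ ∃ τ', g = L τ - L τ') := by
    intro τ i hi
    rcases hbd τ i hi with ⟨f, h2, h3, h4⟩ | ⟨τ', h2, h3⟩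
    · exact ⟨f, h3, h4, Or.inl h2⟩
    · refine ⟨L τ - L τ', ?_, ?_, Or.inr ⟨τ', rfl⟩⟩
      · rw [LinearMap.sub_apply, hin τ i hi]
        exact sub_pos.2 (hlow τ' i h2)
      · intro j hj hji
        rw [LinearMap.sub_apply, hin τ j hj, hin τ' j (h3 j hj hji), sub_self]
  choose! g hg1 hg2 hg3 using h1
  let b : ι → P → E →ₗ[ℝ] ℝ := fun τ i => (g τ i (A i))⁻¹ • g τ i
  have hb : ∀ τ i z, b τ i z = (g τ i (A i))⁻¹ * g τ i z := fun τ i z => rfl
  have hdual : ∀ τ, ∀ i ∈ cell τ, ∀ j ∈ cell τ, b τ i (A j) = if i = j then 1 else 0 := by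
    intro τ i hi j hj
    rw [hb]
    by_cases hij : i = j
    · subst hij
      rw [if_pos rfl, inv_mul_cancel₀ (hg1 τ i hi).ne']
    · rw [if_neg hij, hg2 τ i hi j hj (Ne.symm hij), mul_zero]
  have hli : ∀ τ, LinearIndependent ℝ (fun i : cell τ => A i) := by
    intro τ
    rw [Fintype.linearIndependent_iff]
    intro c hc i
    have h2 := congrArg (b τ i) hc
    rw [map_sum, map_zero, Finset.sum_eq_single i] at h2
    · rw [map_smul, hdual τ i i.2 i i.2, if_pos rfl, smul_eq_mul, mul_one] at h2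
      exact h2
    · intro j _ hji
      rw [map_smul, hdual τ i i.2 j j.2, if_neg (fun h => hji (Subtype.ext h.symm)), smul_zero]
    · intro h
      exact absurd (Finset.mem_univ _) h
  have hrec : ∀ τ z, ∑ i ∈ cell τ, b τ i z • A i = z := by
    intro τ z
    have hc : Fintype.card (cell τ) = Module.finrank ℝ E := by
      rw [Fintype.card_coe]
      exact hcard τ
    rcases isEmpty_or_nonempty (cell τ) with he | hne
    · have h0 : Module.finrank ℝ E = 0 := by
        rw [← hc]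
        exact Fintype.card_eq_zero
      have h2 : Subsingleton E := Module.finrank_zero_iff.1 h0
      exact Subsingleton.elim _ _
    · let B := basisOfLinearIndependentOfCardEqFinrank (hli τ) hc
      have hB : ∀ i : cell τ, B i = A i := fun i => by
        simp [B]
      have h2 : z = ∑ i, B.repr z i • A i := by
        conv_lhs => rw [← B.sum_repr z]
        exact Finset.sum_congr rfl fun i _ => by rw [hB]
      have h3 : ∀ i : cell τ, b τ i z = B.repr z i := by
        intro i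
        conv_lhs => rw [h2]
        rw [map_sum, Finset.sum_eq_single i]
        · rw [map_smul, hdual τ i i.2 i i.2, if_pos rfl, smul_eq_mul, mul_one]
        · intro j _ hji
          rw [map_smul, hdual τ i i.2 j j.2, if_neg (fun h => hji (Subtype.ext h.symm)), smul_zero]
        · intro h
          exact absurd (Finset.mem_univ _) h
      rw [← Finset.sum_coe_sort]
      conv_rhs => rw [h2]
      exact Finset.sum_congr rfl fun i _ => by rw [h3]
  have hL : ∀ τ z, ∑ i ∈ cell τ, h i * b τ i z = L τ z := by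
    intro τ z
    conv_rhs => rw [← hrec τ z]
    rw [map_sum]
    refine Finset.sum_congr rfl fun i hi => ?_
    rw [map_smul, hin τ i hi, smul_eq_mul, mul_comm]
  refine reg_tri A K cell h b hdual hrec ?_ ?_
  · intro τ j hj
    rw [hL]
    exact hlow τ j hj
  · intro τ i hi
    rcases hg3 τ i hi with h2 | ⟨τ', h2⟩
    · refine Or.inl fun z hz => ?_
      rw [hb]
      exact mul_nonneg (inv_nonneg.2 (hg1 τ i hi).le) (h2 z hz)
    · refine Or.inr ⟨τ', g τ i (A i), hg1 τ i hi, fun z => ?_⟩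
      rw [hL, hL, hb, ← mul_assoc, mul_inv_cancel₀ (hg1 τ i hi).ne', one_mul]
      have h3 := congrArg (fun f : E →ₗ[ℝ] ℝ => f z) h2
      simp only [LinearMap.sub_apply] at h3
      linarith

end Pool.Agent.Helper80.CT
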