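import Pool.Agent.Helper80.CT.Coup
import Pool.Agent.Helper80.CT.CoupUn
import Pool.Agent.Helper80.CT.Cnt

/-!
# Block CT-STEP: the product with a cube

`T` triangulates the cube over `κ`, `D` triangulates `C_l × Δ^(m-1)`, `c` is a colouring of the vertices of the cube over `κ` with `m`
colours.  `P = κ → Bool`, `Q = Fin l → Bool` with arbitrary linear orders (e.g. `LinearOrder.lift' (Fintype.equivFin _)
(Equiv.injective _)`; `classical`).

CELLS.  For `S ∈ T`, `τ ∈ D` and a family of multisets `M j` of elements of `S_j = {p ∈ S : c p = j}` with at most `rr τ j` elements: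
`cell S τ M = {(p, v) : p ∈ S and InStair (lay τ (c p)) (M (c p)) v p}`.  `T'` is the set of all of them: image of a sigma of
`Fintype.piFinset` of the sets of `exists_msets`; the number of the cells is as stated (`card_image_le`, `card_sigma`,
`Fintype.card_piFinset`, `prod_le_prod`).

EXISTENCE.  `(1, y, x)`.  `hT.ex` gives `S`, `lam` with `∑ lam p • (1, vx p) = (1, y)`.  `mu j = ∑_{p : c p = j} lam p`; `(x, mu) ∈ prK l m`;
`hD.ex` gives `τ`, `t`.  `∑_v t (v, j) = mu j` (second component of the equation), `∑_{v, j} t (v, j) vx v = x`.  For each `j`: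
`coup_ex` with `R = lay τ j`, `S_j`, `a v = t (v, j)`, `b p = if c p = j then lam p else 0` gives `M j`, `s j`.
`u (p, v) = s (c p) v p`: nonnegative, support in `cell S τ M`; `∑_v u (p, v) = lam p`, so the components `1`, `y` are right;
`∑_p u (p, v) = ∑_j ∑_{p : c p = j} s j v p = ∑_j ∑_p s j v p = ∑_j t (v, j)` (`s j v p = 0` if `c p ≠ j`, because its column sum is zero), so
the component `x` is right.

UNIQUENESS.  `u`, `u'` with supports in cells `(S, τ, M)`, `(S', τ', M')` and the same value.  `lam p = ∑_v u (p, v)` is supported on `S`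
and gives `(1, y)`: `lam = lam'` by `hT.un`.  `t (v, j) = ∑_{p : c p = j} u (p, v)` is supported on `τ` and gives `(x, mu)`, where
`mu j = ∑_{p : c p = j} lam p`: `t = t'` by `hD.un`.  For each `j`: `s v p = if c p = j then u (p, v) else 0` has support in a staircase, so
`ChainSupp` (`stair_chain`), row sums `t (v, j)`, column sums `lam p` or `0`: `coup_un`.
-/

set_option autoImplicit false

namespace Pool.Agent.Helper80.CT

open Finset

section abs52

variable {P Q E F : Type} [Fintype P] [Fintype Q] [LinearOrder P] [LinearOrder Q] [AddCommGroup E]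
  [Module ℝ E] [AddCommGroup F] [Module ℝ F] {m : ℕ}

open Classical in
/-- The cell of `S`, `τ` and the thresholds `M`. -/
private noncomputable def cell52 (R : Fin m → Finset Q) (c : P → Fin m) (S : Finset P)
    (M : Fin m → Multiset P) : Finset (P × Q) :=
  Finset.univ.filter fun x => x.1 ∈ S ∧ InStair (R (c x.1)) (M (c x.1)) x.2 x.1

omit [AddCommGroup E] [Module ℝ E] [AddCommGroup F] [Module ℝ F] in
private lemma mem_cell52 (R : Fin m → Finset Q) (c : P → Fin m) (S : Finset P)
    (M : Fin m → Multiset P) (x : P × Q) :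
    x ∈ cell52 R c S M ↔ x.1 ∈ S ∧ InStair (R (c x.1)) (M (c x.1)) x.2 x.1 := by
  classical
  unfold cell52
  simp

omit [LinearOrder P] [LinearOrder Q] in
private lemma sum_pair52 (A : P → E) (B : Q → F) (u : P × Q → ℝ) :
    ∑ x, u x • (A x.1, B x.2) =
      (∑ p, (∑ v, u (p, v)) • A p, ∑ v, (∑ p, u (p, v)) • B v) := by
  apply Prod.ext
  · rw [Prod.fst_sum, Fintype.sum_prod_type]
    refine Finset.sum_congr rfl fun p _ => ?_
    rw [Finset.sum_smul]
    exact Finset.sum_congr rfl fun v _ => rfl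
  · rw [Prod.snd_sum, Fintype.sum_prod_type_right]
    refine Finset.sum_congr rfl fun v _ => ?_
    rw [Finset.sum_smul]
    exact Finset.sum_congr rfl fun v _ => rfl

omit [Fintype P] [LinearOrder P] [LinearOrder Q] in
private lemma sum_lay52 (B : Q → F) (t : Q × Fin m → ℝ) :
    ∑ x, t x • ((B x.1, Pi.single x.2 (1 : ℝ)) : F × (Fin m → ℝ)) =
      (∑ v, (∑ j, t (v, j)) • B v, fun j => ∑ v, t (v, j)) := by
  apply Prod.ext
  · rw [Prod.fst_sum, Fintype.sum_prod_type]
    refine Finset.sum_congr rfl fun p _ => ?_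
    rw [Finset.sum_smul]
    exact Finset.sum_congr rfl fun v _ => rfl
  · rw [Prod.snd_sum, Fintype.sum_prod_type]
    funext j
    rw [Finset.sum_apply]
    refine Finset.sum_congr rfl fun v _ => ?_
    rw [Finset.sum_apply, Finset.sum_eq_single j]
    · simp
    · intro i _ hi
      simp [Ne.symm hi]
    · intro h
      exact absurd (Finset.mem_univ _) h

private theorem step52 (A : P → E) (K : Set E) (B : Q → F) (KD : Set (F × (Fin m → ℝ)))
    {T : Finset (Finset P)} (hT : Tri A K T) {D : Finset (Finset (Q × Fin m))}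
    (hD : Tri (fun x : Q × Fin m => ((B x.1, Pi.single x.2 (1 : ℝ)) : F × (Fin m → ℝ))) KD D)
    (c : P → Fin m) (K2 : Set (E × F)) (h1 : ∀ z ∈ K2, z.1 ∈ K)
    (h2 : ∀ z ∈ K2, ∀ mu : Fin m → ℝ, (∀ j, 0 ≤ mu j) → ∑ j, mu j = 1 → (z.2, mu) ∈ KD)
    (hs : ∀ t : P → ℝ, ∑ p, t p • A p ∈ K → ∑ p, t p = 1)
    (R : Finset (Q × Fin m) → Fin m → Finset Q) (hR : ∀ τ j v, v ∈ R τ j ↔ (v, j) ∈ τ)
    (G : Finset P → Fin m → Finset P) (hG : ∀ S j p, p ∈ G S j ↔ p ∈ S ∧ c p = j) :
    ∃ T' : Finset (Finset (P × Q)), Tri (fun x : P × Q => (A x.1, B x.2)) K2 T' ∧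
      T'.card ≤ ∑ S ∈ T, ∑ τ ∈ D,
        ∏ j, ((G S j).card + ((R τ j).card - 1)).choose ((R τ j).card - 1) := by
  classical
  choose Fs hF1 hF2 using fun (S : Finset P) (r : ℕ) => exists_msets S r
  let cs : Finset P → Finset (Q × Fin m) → Finset (Finset (P × Q)) := fun S τ =>
    (Fintype.piFinset fun j => Fs (G S j) ((R τ j).card - 1)).image (cell52 (R τ) c S)
  let T' : Finset (Finset (P × Q)) := T.biUnion fun S => D.biUnion fun τ => cs S τ
  have hmem : ∀ X, X ∈ T' ↔ ∃ S ∈ T, ∃ τ ∈ D, ∃ M : Fin m → Multiset P,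
      (∀ j, M j ∈ Fs (G S j) ((R τ j).card - 1)) ∧ cell52 (R τ) c S M = X := by
    intro X
    simp only [T', cs, Finset.mem_biUnion, Finset.mem_image, Fintype.mem_piFinset]
  refine ⟨T', ⟨?_, ?_⟩, ?_⟩
  · -- existence
    rintro ⟨y, x⟩ hz
    obtain ⟨S, hS, lam, hlam0, hlamS, hlam⟩ := hT.ex y (h1 _ hz)
    have hlam1 : ∑ p, lam p = 1 := hs lam (by rw [hlam]; exact h1 _ hz)
    let mu : Fin m → ℝ := fun j => ∑ p, if c p = j then lam p else 0
    have hmu0 : ∀ j, 0 ≤ mu j := fun j => Finset.sum_nonneg fun p _ => by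
      split_ifs
      · exact hlam0 p
      · exact le_rfl
    have hmu1 : ∑ j, mu j = 1 := by
      simp only [mu]
      rw [Finset.sum_comm, ← hlam1]
      refine Finset.sum_congr rfl fun p _ => ?_
      rw [Finset.sum_ite_eq]
      simp
    obtain ⟨τ, hτ, t, ht0, htτ, ht⟩ := hD.ex _ (h2 _ hz mu hmu0 hmu1)
    rw [sum_lay52] at ht
    have ht1 : ∑ v, (∑ j, t (v, j)) • B v = x := congrArg Prod.fst ht
    have ht2 : ∀ j, ∑ v, t (v, j) = mu j := fun j => congrFun (congrArg Prod.snd ht) j
    have hcoup := fun j : Fin m => coup_ex (R τ j) (G S j) (fun v => t (v, j))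
      (fun p => if c p = j then lam p else 0) (fun v => ht0 _)
      (fun p => by
        split_ifs
        · exact hlam0 p
        · exact le_rfl)
      (fun v hv => htτ _ fun h => hv ((hR τ j v).2 h))
      (fun p hp => by
        split_ifs with hc
        · exact hlamS p fun h => hp ((hG S j p).2 ⟨h, hc⟩)
        · rfl)
      (ht2 j)
    choose M s hM1 hM2 hs0 hsrow hscol hsupp using hcoup
    have hsz : ∀ j v p, c p ≠ j → s j v p = 0 := by
      intro j v p hc
      have h3 := hscol j p
      rw [if_neg hc] at h3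
      exact (Finset.sum_eq_zero_iff_of_nonneg fun v _ => hs0 j v p).1 h3 v (Finset.mem_univ v)
    refine ⟨cell52 (R τ) c S M, (hmem _).2 ⟨S, hS, τ, hτ, M, fun j => hF1 _ _ _ (hM1 j) (hM2 j), rfl⟩,
      fun x => s (c x.1) x.2 x.1, fun x => hs0 _ _ _, ?_, ?_⟩
    · rintro ⟨p, v⟩ hx
      by_contra hne
      apply hx
      rw [mem_cell52]
      refine ⟨?_, hsupp _ _ _ hne⟩
      by_contra hp
      apply hne
      have h3 := hscol (c p) p
      rw [if_pos rfl, hlamS p hp] at h3
      exact (Finset.sum_eq_zero_iff_of_nonneg fun v _ => hs0 (c p) v p).1 h3 v (Finset.mem_univ v)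
    · rw [sum_pair52]
      apply Prod.ext
      · change ∑ p, (∑ v, s (c p) v p) • A p = y
        rw [← hlam]
        refine Finset.sum_congr rfl fun p _ => ?_
        rw [hscol, if_pos rfl]
      · change ∑ v, (∑ p, s (c p) v p) • B v = x
        rw [← ht1]
        refine Finset.sum_congr rfl fun v _ => ?_
        congr 1
        have h3 : ∀ j, t (v, j) = ∑ p, s j v p := fun j => (hsrow j v).symm
        simp_rw [h3]
        rw [Finset.sum_comm]
        refine Finset.sum_congr rfl fun p _ => ?_
        rw [Finset.sum_eq_single (c p)]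
        · intro j _ hj
          exact hsz j v p (Ne.symm hj)
        · intro h
          exact absurd (Finset.mem_univ _) h
  · -- uniqueness
    intro X hX X' hX' u u' hu0 huX hu0' huX' heq
    obtain ⟨S, hS, τ, hτ, M, -, rfl⟩ := (hmem X).1 hX
    obtain ⟨S', hS', τ', hτ', M', -, rfl⟩ := (hmem X').1 hX'
    rw [sum_pair52, sum_pair52] at heq
    have heq1 := congrArg Prod.fst heq
    have heq2 := congrArg Prod.snd heq
    have hsup : ∀ {S : Finset P} {τ : Finset (Q × Fin m)} {M : Fin m → Multiset P} {u : P × Q → ℝ},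
        (∀ x, x ∉ cell52 (R τ) c S M → u x = 0) → ∀ p v, u (p, v) ≠ 0 →
          p ∈ S ∧ InStair (R τ (c p)) (M (c p)) v p := by
      intro S τ M u hu p v h
      by_contra hcon
      apply h
      refine hu _ fun hx => ?_
      rw [mem_cell52] at hx
      exact hcon hx
    have hlam : (fun p => ∑ v, u (p, v)) = fun p => ∑ v, u' (p, v) := by
      refine hT.un S hS S' hS' _ _ (fun p => Finset.sum_nonneg fun v _ => hu0 _) ?_
        (fun p => Finset.sum_nonneg fun v _ => hu0' _) ?_ heq1
      · intro p hp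
        refine Finset.sum_eq_zero fun v _ => ?_
        by_contra h
        exact hp (hsup huX p v h).1
      · intro p hp
        refine Finset.sum_eq_zero fun v _ => ?_
        by_contra h
        exact hp (hsup huX' p v h).1
    have hlam' : ∀ p, ∑ v, u (p, v) = ∑ v, u' (p, v) := fun p => congrFun hlam p
    let tt : (P × Q → ℝ) → Q × Fin m → ℝ := fun u x => ∑ p, if c p = x.2 then u (p, x.1) else 0
    have htt0 : ∀ u : P × Q → ℝ, (∀ x, 0 ≤ u x) → ∀ x, 0 ≤ tt u x := fun u hu x =>
      Finset.sum_nonneg fun p _ => by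
        split_ifs
        · exact hu _
        · exact le_rfl
    have htt1 : ∀ {S : Finset P} {τ : Finset (Q × Fin m)} {M : Fin m → Multiset P} {u : P × Q → ℝ},
        (∀ x, x ∉ cell52 (R τ) c S M → u x = 0) → ∀ x, x ∉ τ → tt u x = 0 := by
      intro S τ M u hu x hx
      refine Finset.sum_eq_zero fun p _ => ?_
      split_ifs with hc
      · by_contra h
        have h3 := (hsup hu p x.1 h).2.1
        rw [hR, hc] at h3
        exact hx h3
      · rfl
    have htt2 : ∀ (u : P × Q → ℝ) (v : Q), ∑ j, tt u (v, j) = ∑ p, u (p, v) := by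
      intro u v
      simp only [tt]
      rw [Finset.sum_comm]
      refine Finset.sum_congr rfl fun p _ => ?_
      rw [Finset.sum_ite_eq]
      simp
    have htt3 : ∀ (u : P × Q → ℝ) (j : Fin m), ∑ v, tt u (v, j) =
        ∑ p, if c p = j then ∑ v, u (p, v) else 0 := by
      intro u j
      simp only [tt]
      rw [Finset.sum_comm]
      refine Finset.sum_congr rfl fun p _ => ?_
      split_ifs
      · rfl
      · simp
    have ht : tt u = tt u' := by
      refine hD.un τ hτ τ' hτ' _ _ (htt0 u hu0) (htt1 huX) (htt0 u' hu0') (htt1 huX') ?_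
      rw [sum_lay52, sum_lay52]
      apply Prod.ext
      · change ∑ v, (∑ j, tt u (v, j)) • B v = ∑ v, (∑ j, tt u' (v, j)) • B v
        simp_rw [htt2]
        exact heq2
      · funext j
        change ∑ v, tt u (v, j) = ∑ v, tt u' (v, j)
        rw [htt3, htt3]
        exact Finset.sum_congr rfl fun p _ => by rw [hlam']
    have hchain : ∀ {S : Finset P} {τ : Finset (Q × Fin m)} {M : Fin m → Multiset P} {u : P × Q → ℝ},
        (∀ x, x ∉ cell52 (R τ) c S M → u x = 0) → ∀ j,
          ChainSupp (fun (v : Q) (p : P) => if c p = j then u (p, v) else 0) := by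
      intro S τ M u hu j q q' p p' hq hq' hlt
      have h3 : c p = j := by
        by_contra h
        exact hq (if_neg h)
      have h4 : c p' = j := by
        by_contra h
        exact hq' (if_neg h)
      have h5 : u (p, q) ≠ 0 := by
        have : (if c p = j then u (p, q) else 0) ≠ 0 := hq
        rwa [if_pos h3] at this
      have h6 : u (p', q') ≠ 0 := by
        have : (if c p' = j then u (p', q') else 0) ≠ 0 := hq'
        rwa [if_pos h4] at this
      have h7 := (hsup hu p q h5).2
      have h8 := (hsup hu p' q' h6).2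
      rw [h3] at h7
      rw [h4] at h8
      exact stair_chain h7 h8 hlt
    have hfin : ∀ j, (fun (v : Q) (p : P) => if c p = j then u (p, v) else 0) =
        fun (v : Q) (p : P) => if c p = j then u' (p, v) else 0 := by
      intro j
      refine coup_un _ _ ?_ ?_ (hchain huX j) (hchain huX' j) ?_ ?_
      · intro v p
        split_ifs
        · exact hu0 _
        · exact le_rfl
      · intro v p
        split_ifs
        · exact hu0' _
        · exact le_rfl
      · intro v
        exact congrFun ht (v, j)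
      · intro p
        by_cases hc : c p = j
        · simp only [if_pos hc]
          exact hlam' p
        · simp only [if_neg hc]
    funext x
    have h3 := congrFun (congrFun (hfin (c x.1)) x.2) x.1
    simpa using h3
  · -- the number of the cells
    refine Finset.card_biUnion_le.trans (Finset.sum_le_sum fun S _ => ?_)
    refine Finset.card_biUnion_le.trans (Finset.sum_le_sum fun τ _ => ?_)
    refine Finset.card_image_le.trans ?_
    rw [Fintype.card_piFinset]
    exact Finset.prod_le_prod' fun j _ => hF2 _ _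

end abs52

open Classical in
theorem step {κ : Type} [Fintype κ] {l m : ℕ} {T : Finset (Finset (κ → Bool))}
    (hT : Tri (cubeA κ) (cubeK κ) T) {D : Finset (Finset ((Fin l → Bool) × Fin m))}
    (hD : Tri (prA l m) (prK l m) D) (c : (κ → Bool) → Fin m) :
    ∃ T' : Finset (Finset ((κ → Bool) × (Fin l → Bool))), Tri (ccA κ l) (ccK κ l) T' ∧
      T'.card ≤ ∑ S ∈ T, ∑ τ ∈ D, ∏ j, ((S.filter fun p => c p = j).card + rr τ j).choose (rr τ j) := by
  let iP : LinearOrder (κ → Bool) := LinearOrder.lift' (Fintype.equivFin (κ → Bool)) (Equiv.injective _)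
  let iQ : LinearOrder (Fin l → Bool) :=
    LinearOrder.lift' (Fintype.equivFin (Fin l → Bool)) (Equiv.injective _)
  let K2 : Set ((ℝ × (κ → ℝ)) × (Fin l → ℝ)) :=
    {z | z.1 ∈ cubeK κ ∧ ∀ i, 0 ≤ z.2 i ∧ z.2 i ≤ 1}
  obtain ⟨T', hT', hcard⟩ := @step52 (κ → Bool) (Fin l → Bool) (ℝ × (κ → ℝ)) (Fin l → ℝ) _ _ iP iQ
    _ _ _ _ m (cubeA κ) (cubeK κ) vx (prK l m) T hT D hD c K2 (fun z hz => hz.1)
    (fun z hz mu hmu0 hmu1 => ⟨hz.2, hmu0, hmu1⟩)
    (fun t ht => by
      have h1 : (∑ p, t p • cubeA κ p).1 = 1 := ht.1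
      rw [Prod.fst_sum] at h1
      rw [← h1]
      refine Finset.sum_congr rfl fun p _ => ?_
      simp [cubeA])
    lay (fun τ j v => by unfold lay; simp) (fun S j => S.filter fun p => c p = j)
    (fun S j p => by simp)
  refine ⟨T', ⟨?_, ?_⟩, hcard⟩
  · rintro ⟨z1, z2, z3⟩ hz
    obtain ⟨X, hX, t, ht0, htX, ht⟩ := hT'.ex ((z1, z2), z3) ⟨⟨hz.1, hz.2.1⟩, hz.2.2⟩
    refine ⟨X, hX, t, ht0, htX, ?_⟩
    have h1 := congrArg (fun w : (ℝ × (κ → ℝ)) × (Fin l → ℝ) => (w.1.1, w.1.2, w.2)) ht
    simp only [Prod.fst_sum, Prod.snd_sum] at h1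
    rw [← h1]
    apply Prod.ext
    · rw [Prod.fst_sum]
      rfl
    · apply Prod.ext
      · rw [Prod.snd_sum, Prod.fst_sum]
        rfl
      · rw [Prod.snd_sum, Prod.snd_sum]
        rfl
  · intro X hX X' hX' t t' ht0 htX ht0' htX' heq
    refine hT'.un X hX X' hX' t t' ht0 htX ht0' htX' ?_
    have h1 := congrArg (fun w : ℝ × (κ → ℝ) × (Fin l → ℝ) => ((w.1, w.2.1), w.2.2)) heq
    simp only [Prod.fst_sum, Prod.snd_sum] at h1
    apply Prod.ext
    · apply Prod.ext
      · rw [Prod.fst_sum, Prod.fst_sum, Prod.fst_sum, Prod.fst_sum]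
        exact congrArg (fun w => w.1.1) h1
      · rw [Prod.fst_sum, Prod.snd_sum, Prod.fst_sum, Prod.snd_sum]
        exact congrArg (fun w => w.1.2) h1
    · rw [Prod.snd_sum, Prod.snd_sum]
      exact congrArg (fun w => w.2) h1

end Pool.Agent.Helper80.CT
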