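import Pool.Agent.Helper80.CT.Data

/-!
# Verification of the certificate in the kernel
-/

set_option autoImplicit false
set_option maxRecDepth 100000

namespace Pool.Agent.Helper80.CT

theorem d43_len : d43R.length = 172 := by decide +kernel

theorem d43_chk : chkAll 4 3 172 d43B d43H 0 d43R = true := by decide +kernel

theorem d43_wsum : wsum 4 3 d43R = 444672 := by decide +kernel

theorem d43_x : ∀ (i : Fin 4) (p : (Fin 4 → Bool) × Fin 3),
    (mkT d43B (3 * 2 ^ 4) (172 + i)).testBit (ix p) = !(p.1 i) := by decide +kernel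

theorem d43_y : ∀ (i : Fin 4) (p : (Fin 4 → Bool) × Fin 3),
    (mkT d43B (3 * 2 ^ 4) (172 + 4 + i)).testBit (ix p) = p.1 i := by decide +kernel

theorem d43_m : ∀ (j : Fin 3) (p : (Fin 4 → Bool) × Fin 3),
    (mkT d43B (3 * 2 ^ 4) (172 + 2 * 4 + j)).testBit (ix p) = !decide (p.2 = j) := by decide +kernel

/-- The triangulation of the product of the 4-cube with a triangle, of weight 193/6. -/
theorem exists_D43 : ∃ D : Finset (Finset ((Fin 4 → Bool) × Fin 3)), Tri (prA 4 3) (prK 4 3) D ∧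
    (∀ τ ∈ D, ∑ j, rr τ j = 4) ∧ ∑ τ ∈ D, wt τ ≤ 193 / 6 := by
  obtain ⟨D, h1, h2, h3⟩ := cert' 4 3 172 d43B d43H d43R d43_len (by norm_num) d43_chk d43_x d43_y d43_m
  refine ⟨D, h1, h2, h3.trans (le_of_eq ?_)⟩
  rw [d43_wsum]
  norm_num [Nat.factorial]

end Pool.Agent.Helper80.CT
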